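import Pool.Agent.Helper66.PAP.Star
import Pool.Agent.Helper44.MertensProd

/-!
# Project PAP: the `n` for which some `n + h i` has a small prime factor
-/

set_option autoImplicit false

open Finset Filter

namespace Pool.Agent.Helper66.PAP

open Pool.Agent.Helper1.MT

/-- Some small prime of the sieve divides some `n + h i`. -/
def BadAt {κ : Type} (h : κ → ℕ) (W : ℕ) (ε x : ℝ) (n : ℕ) : Prop :=
  ∃ q : PS (lev x) W, tp (lev x) W q ≤ ε ∧ ∃ i, (q : ℕ) ∣ n + h i

theorem sum_log_small : ∃ C : ℝ, 0 < C ∧ ∀ (R W : ℕ) (ε : ℝ), 3 ≤ R → 0 ≤ ε →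
    ∑ q ∈ univ.filter (fun q : PS R W => tp R W q ≤ ε), Real.log (q : ℕ) / ((q : ℕ) : ℝ) ≤
      ε * Real.log R + C := by
  obtain ⟨C, hC, hM⟩ := Pool.Agent.Helper44.mertens_first
  refine ⟨C, hC, fun R W ε hR hε => ?_⟩
  have hR1 : (1 : ℝ) < R := by exact_mod_cast (by omega : 1 < R)
  have hR0 : (0 : ℝ) < R := by linarith
  have hlR : 0 < Real.log R := Real.log_pos hR1
  set N := ⌊(R : ℝ) ^ ε⌋₊ with hN
  have hN1 : 1 ≤ N := by
    rw [hN, Nat.one_le_floor_iff]
    exact Real.one_le_rpow hR1.le hε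
  have h1 := (abs_le.1 (hM N hN1)).2
  have h2 : Real.log N ≤ ε * Real.log R := by
    rw [← Real.log_rpow hR0]
    apply Real.log_le_log (by exact_mod_cast hN1)
    exact Nat.floor_le (by positivity)
  have h3 : ∑ q ∈ univ.filter (fun q : PS R W => tp R W q ≤ ε),
      Real.log (q : ℕ) / ((q : ℕ) : ℝ) =
      ∑ p ∈ (PS R W).filter (fun p : ℕ => Real.log p / Real.log R ≤ ε), Real.log p / p := by
    rw [Finset.sum_filter, Finset.sum_filter]
    rw [← Finset.sum_coe_sort (PS R W)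
      (fun p : ℕ => if Real.log p / Real.log R ≤ ε then Real.log p / p else 0)]
    rfl
  rw [h3]
  have h4 : ∑ p ∈ (PS R W).filter (fun p : ℕ => Real.log p / Real.log R ≤ ε), Real.log p / p ≤
      ∑ q ∈ (Ioc 0 N).filter Nat.Prime, Real.log q / q := by
    apply Finset.sum_le_sum_of_subset_of_nonneg
    · intro p hp
      rw [mem_filter] at hp ⊢
      obtain ⟨hp1, hp2⟩ := hp
      rw [mem_PS] at hp1
      refine ⟨?_, hp1.2.1⟩
      rw [mem_Ioc]
      refine ⟨hp1.2.1.pos, ?_⟩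
      rw [hN]
      apply Nat.le_floor
      have hp0 : (0 : ℝ) < p := by exact_mod_cast hp1.2.1.pos
      rw [div_le_iff₀ hlR, ← Real.log_rpow hR0] at hp2
      exact (Real.log_le_log_iff hp0 (Real.rpow_pos_of_pos hR0 _)).1 hp2
    · intro p _ _
      exact div_nonneg (Real.log_natCast_nonneg p) (Nat.cast_nonneg p)
  linarith

theorem sum_inv_small : ∃ C : ℝ, 0 < C ∧ ∀ (R W : ℕ), 3 ≤ R →
    ∑ q : PS R W, 1 / ((q : ℕ) : ℝ) ≤ Real.log (Real.log R) + C := by
  obtain ⟨C, hC, hM⟩ := Pool.Agent.Helper44.sum_primesUpTo_bounds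
  refine ⟨C, hC, fun R W hR => ?_⟩
  have hR2 : (2 : ℝ) ≤ R := by exact_mod_cast (by omega : 2 ≤ R)
  have h1 := (abs_le.1 (hM R hR2)).2
  have h2 : ∑ q : PS R W, 1 / ((q : ℕ) : ℝ) = ∑ p ∈ PS R W, 1 / (p : ℝ) :=
    Finset.sum_coe_sort (PS R W) (fun p : ℕ => 1 / (p : ℝ))
  have h3 : ∑ p ∈ PS R W, 1 / (p : ℝ) ≤
      ∑ q ∈ Pool.Agent.Helper44.primesUpTo (R : ℝ), (1 : ℝ) / q := by
    apply Finset.sum_le_sum_of_subset_of_nonneg
    · intro p hp
      rw [mem_PS] at hp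
      rw [Pool.Agent.Helper44.mem_primesUpTo (by positivity)]
      exact ⟨hp.2.1, by exact_mod_cast hp.1⟩
    · intro p _ _
      positivity
  rw [h2]
  linarith

theorem card_PS_le (R W : ℕ) : Fintype.card (PS R W) ≤ R + 1 := by
  rw [Fintype.card_coe]
  calc (PS R W).card ≤ (range (R + 1)).card := Finset.card_le_card (Finset.filter_subset _ _)
    _ = R + 1 := card_range _

end Pool.Agent.Helper66.PAP
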