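import Pool.Agent.Helper66.PAP.Defs
import Pool.Agent.Helper1.MT.Bounds

/-!
# Project PAP: the sieve bounds in explicit form
-/

set_option autoImplicit false

open Finset Filter
open scoped ArithmeticFunction.vonMangoldt

namespace Pool.Agent.Helper66.PAP

open Pool.Agent.Helper1.MT

/-- The one-dimensional sum of the squares. -/
noncomputable def Bx (K J W : ℕ) (x : ℝ) : ℝ := B1 (wp (lev x) W) (gam K J)

/-- The expected size of the sieve sum. -/
noncomputable def Sx (K J W : ℕ) (x : ℝ) : ℝ := Real.log x / (2 * W) * Bx K J W x ^ K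

/-- The sieve weight of `n`. -/
noncomputable def ux {κ : Type} [Fintype κ] [DecidableEq κ] (h : κ → ℕ) (J W : ℕ) (x : ℝ)
    (n : ℕ) : ℝ :=
  (1 / (n : ℝ)) * sw h (lam (wp (lev x) W) (yw (tp (lev x) W) (gam (Fintype.card κ) J))) n

/-- The facts on the sieve at `x`. -/
structure SieveAt (c1 c : ℝ) {κ : Type} [Fintype κ] [DecidableEq κ] (J D0 : ℕ) (h : κ → ℕ)
    (W v : ℕ) (x : ℝ) : Prop where
  R3 : 3 ≤ lev x
  Rx : (lev x : ℝ) ≤ x ^ (1 / 81 : ℝ)
  x9 : 9 ≤ x
  logx : Real.log x ≤ 82 * Real.log (lev x)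
  good : Good (Fintype.card κ) (wp (lev x) W) (tp (lev x) W) (gam (Fintype.card κ) J)
    (2 ^ J / Kp (Fintype.card κ) J) (2 / D0)
  Blow : 9 / 10 / Kp (Fintype.card κ) J * (c * Real.log (lev x)) ≤ Bx (Fintype.card κ) J W x
  Bone : 1 ≤ Bx (Fintype.card κ) J W x
  tot : ∑ n ∈ NS x W v, ux h J W x n ≤ Sx (Fintype.card κ) J W x + 1
  prim : ∀ m : κ, c1 * ((J + 2) / Fintype.card κ) * Sx (Fintype.card κ) J W x - 1 ≤
    ∑ n ∈ (NS x W v).filter (fun n => (n + h m).Prime), ux h J W x n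

theorem ux_nonneg {κ : Type} [Fintype κ] [DecidableEq κ] (h : κ → ℕ) (J W : ℕ) (x : ℝ)
    (n : ℕ) : 0 ≤ ux h J W x n := by
  unfold ux sw
  positivity

theorem sieveAt (hT : TupleSum) (hG1 : GramUpper) (hG2 : GramLower) (hL : LowerMain)
    (hN1 : SumAll) (hN2 : SumPrime) (hA : OneDim) :
    ∃ c1 : ℝ, 0 < c1 ∧ ∀ (κ : Type) [Fintype κ] [DecidableEq κ] (J D0 : ℕ) (h : κ → ℕ) (W v : ℕ),
      0 < Fintype.card κ → 10 * 2 ^ J ≤ 8 * Fintype.card κ * (J + 2) →
      (Fintype.card κ + 2) ^ 10 ≤ D0 → Setup D0 h W v →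
      ∃ c : ℝ, 0 < c ∧ (W.totient : ℝ) / (4 * W) ≤ c ∧ ∃ X0 : ℝ, ∀ x : ℝ, X0 ≤ x →
        SieveAt c1 c J D0 h W v x := by
  classical
  obtain ⟨c0, hc0, hN2⟩ := hN2
  refine ⟨c0 / 25000, by positivity, ?_⟩
  intro κ _ _ J D0 h W v hK hJ hD hS
  set K := Fintype.card κ with hKdef
  obtain ⟨c, hc, hcW, R0, hR03, hR0⟩ := hA K J D0 W hK hJ hD hS.W_pos hS.small
  obtain ⟨X1, hX13, hX1⟩ := hN1 κ D0 h W v hD hS
  have hN2' := fun m => hN2 κ D0 h W v hD hS m
  choose X2 hX23 hX2 using hN2'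
  refine ⟨c, hc, hcW, ?_⟩
  have hKr : (0 : ℝ) < K := by exact_mod_cast hK
  have hKp : 0 < Kp K J := by unfold Kp; positivity
  have hWr : (0 : ℝ) < W := by exact_mod_cast hS.W_pos
  have hphi : (0 : ℝ) < W.totient := by exact_mod_cast Nat.totient_pos.2 hS.W_pos
  -- large x
  have hlog : Tendsto (fun x : ℝ => Real.log (lev x)) atTop atTop :=
    Real.tendsto_log_atTop.comp (tendsto_natCast_atTop_atTop.comp lev_tendsto)
  have hev : ∀ᶠ x : ℝ in atTop, X1 ≤ x ∧ (∀ m, X2 m ≤ x) ∧ R0 ≤ lev x ∧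
      Real.log x ≤ 82 * Real.log (lev x) ∧
      1 ≤ 9 / 10 / Kp K J * (c * Real.log (lev x)) ∧ 9 ≤ x := by
    refine (eventually_ge_atTop X1).and (((eventually_all).2 fun m =>
      eventually_ge_atTop (X2 m)).and ((lev_tendsto.eventually_ge_atTop R0).and
      (lev_log.and (Eventually.and ?_ (eventually_ge_atTop 9)))))
    have h1 : Tendsto (fun x : ℝ => 9 / 10 / Kp K J * (c * Real.log (lev x))) atTop atTop :=
      (hlog.const_mul_atTop hc).const_mul_atTop (by positivity)
    exact h1.eventually_ge_atTop 1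
  obtain ⟨X0, hX0⟩ := eventually_atTop.1 hev
  refine ⟨X0, fun x hx => ?_⟩
  obtain ⟨hx1, hx2, hxR, hxl, hxB, hx9⟩ := hX0 x hx
  set R := lev x with hRdef
  obtain ⟨hGood, hM1, hAl, hAu, hBl, hBu, hV⟩ := hR0 R hxR
  set w := wp R W with hw
  set w' := wp' R W with hw'
  set t := tp R W with ht
  set γ : Finset (PS R W) → ℝ := gam K J with hγ
  set A := A1 w γ with hAdef
  set B := B1 w γ with hBdef
  set L := c * Real.log R with hLdef
  have hlogR : 0 < Real.log R := Real.log_pos (by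
    have : 3 ≤ R := hR03.trans hxR
    exact_mod_cast (by omega : 1 < R))
  have hL0 : 0 < L := by positivity
  have hlogx : 0 < Real.log x := Real.log_pos (by linarith)
  have hA0 : 0 ≤ A := A1_nonneg hGood
  have hB1 : 1 ≤ B := hxB.trans hBl
  have hRr : (1 : ℝ) ≤ R := by
    have : 3 ≤ R := hR03.trans hxR
    exact_mod_cast (by omega : 1 ≤ R)
  -- the weights 1/(p-1)
  have hpD : ∀ p : PS R W, ((K : ℝ) + 2) ≤ ((p : ℕ) : ℝ) := by
    intro p
    have h1 := PS_large hS.small p
    have h2 : K + 2 ≤ (K + 2) ^ 10 := Nat.le_self_pow (by norm_num) _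
    exact_mod_cast (h2.trans hD).trans h1
  have hw'0 : ∀ p, 0 ≤ w' p := by
    intro p
    have := hpD p
    simp only [hw', wp']
    exact div_nonneg zero_le_one (by linarith)
  have hw'K : ∀ p, (K : ℝ) * w' p ≤ 1 := by
    intro p
    have := hpD p
    simp only [hw', wp']
    rw [mul_one_div, div_le_one (by linarith)]
    linarith
  have hww' : ∀ p, w p ≤ w' p := by
    intro p
    have := hpD p
    simp only [hw, hw', wp, wp']
    exact one_div_le_one_div_of_le (by linarith) (by linarith)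
  have hww2 : ∀ p, w' p - w p ≤ 2 * w p ^ 2 := by
    intro p
    have := hpD p
    simp only [hw, hw', wp, wp']
    have h1 : (0 : ℝ) < ((p : ℕ) : ℝ) := by linarith
    have h2 : (0 : ℝ) < ((p : ℕ) : ℝ) - 1 := by linarith
    have h3 : (2 : ℝ) ≤ ((p : ℕ) : ℝ) := by linarith
    rw [div_sub_div _ _ h2.ne' h1.ne', div_pow, one_pow, mul_one_div,
      div_le_div_iff₀ (by positivity) (by positivity)]
    nlinarith
  -- S
  set Lx := Real.log x / (2 * W) with hLx
  have hLx0 : 0 < Lx := by positivity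
  have hSx : Sx K J W x = Lx * B ^ K := rfl
  refine ⟨hR03.trans hxR, Nat.floor_le (by positivity), hx9, hxl, hGood, hBl, hB1, ?_, ?_⟩
  · -- total
    have h1 := hX1 x hx1 (yw t γ) (fun c => (yw_abs_le hGood c).trans hRr)
      (fun c hc => (yw_supp hc).trans (by norm_num))
    have h2 := hG1 (PS R W) κ w (yw t γ) hGood.w_nonneg (fun p => by
      have := hGood.w_le p
      have h0 := hGood.w_nonneg p
      rw [← hKdef]
      nlinarith)
    have h3 := h2.trans (energy_le hT hGood)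
    have h4 := (abs_le.1 h1).2
    have h5 : Lx * Qf (fun p => pr κ (w p)) (lam w (yw t γ)) ≤ Sx K J W x := by
      rw [hSx]
      exact mul_le_mul_of_nonneg_left h3 hLx0.le
    have h6 : ∑ n ∈ NS x W v, ux h J W x n =
        ∑ n ∈ NS x W v, 1 / (n : ℝ) * sw h (lam w (yw t γ)) n := rfl
    rw [h6]
    linarith
  · -- primes
    intro m
    have h1 := hX2 m x (hx2 m) (yw t γ) (fun c => yw_abs_le hGood c) (fun c hc => yw_supp hc)
    have h2 := hG2 (PS R W) κ w w' m (yw t γ) hw'0 hw'K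
    have h3 := hL (PS R W) κ w w' t γ _ _ hGood hww' hww2 hM1 m
    have h4 := h3.trans h2
    refine le_trans ?_ h1
    have h5 : c0 / 25000 * ((J + 2) / (K : ℝ)) * Sx K J W x ≤ c0 / (W.totient : ℝ) *
        (1 / 2 * (A ^ 2 * B ^ (K - 1))) := by
      have hBK : B ^ K = B ^ (K - 1) * B := by
        rw [← pow_succ]
        congr 1
        omega
      have hJ0 : (0 : ℝ) ≤ J := by positivity
      have key : 1 / 25000 * ((J + 2) / (K : ℝ)) * (Real.log x * W.totient / W * B) ≤ A ^ 2 := by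
        have e1 : Real.log x * W.totient / W * B ≤ 82 * Real.log R * (4 * c) *
            (16 / 10 / Kp K J * L) := by
          have e2 : (W.totient : ℝ) / W ≤ 4 * c := by
            have : (W.totient : ℝ) / W = 4 * ((W.totient : ℝ) / (4 * W)) := by
              field_simp
            rw [this]
            linarith
          calc Real.log x * W.totient / W * B = Real.log x * ((W.totient : ℝ) / W) * B := by ring
            _ ≤ _ := by gcongr
        have e3 : A ^ 2 ≥ (9 / 10 * (J + 2 : ℝ) / (2 * Kp K J) * L) ^ 2 := by gcongr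
        have e4 : 1 / 25000 * ((J + 2) / (K : ℝ)) * (82 * Real.log R * (4 * c) *
            (16 / 10 / Kp K J * L)) ≤ (9 / 10 * (J + 2 : ℝ) / (2 * Kp K J) * L) ^ 2 := by
          have e5 : (9 / 10 * (J + 2 : ℝ) / (2 * Kp K J) * L) ^ 2 =
              (81 / 3200 : ℝ) * ((J + 2) / K) * (L ^ 2 / Kp K J) := by
            unfold Kp
            field_simp
            ring
          have e6 : 1 / 25000 * ((J + 2) / (K : ℝ)) * (82 * Real.log R * (4 * c) *
            (16 / 10 / Kp K J * L)) = (5248 / 250000 : ℝ) * ((J + 2) / K) * (L ^ 2 / Kp K J) := by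
            rw [hLdef]
            ring
          rw [e5, e6]
          have : 0 ≤ ((J + 2) / (K : ℝ)) * (L ^ 2 / Kp K J) := by positivity
          nlinarith
        calc _ ≤ 1 / 25000 * ((J + 2) / (K : ℝ)) * (82 * Real.log R * (4 * c) *
            (16 / 10 / Kp K J * L)) := by gcongr
          _ ≤ _ := e4.trans e3
      rw [hSx, hLx, hBK]
      have hB' : 0 ≤ B ^ (K - 1) := by positivity
      have e7 : c0 / 25000 * ((J + 2) / (K : ℝ)) * (Real.log x / (2 * W) * (B ^ (K - 1) * B)) =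
          c0 / (W.totient : ℝ) * (1 / 2 * ((1 / 25000 * ((J + 2) / (K : ℝ)) *
            (Real.log x * W.totient / W * B)) * B ^ (K - 1))) := by
        field_simp
      rw [e7]
      gcongr
    have h6 : c0 / (W.totient : ℝ) * (1 / 2 * (A ^ 2 * B ^ (K - 1))) ≤
        c0 / (W.totient : ℝ) * Qf (fun p => prm m (w' p)) (lam w (yw t γ)) :=
      mul_le_mul_of_nonneg_left h4 (by positivity)
    linarith

end Pool.Agent.Helper66.PAP
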