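import Pool.Agent.Helper66.PAP.Bad
import Pool.Agent.Helper66.PAP.BoundsX

/-!
# Project PAP: the `n` for which some `n + h i` has a small prime factor contribute little
-/

set_option autoImplicit false

open Finset Filter

namespace Pool.Agent.Helper66.PAP

open Pool.Agent.Helper1.MT

/-- The union bound. -/
theorem bad_union {κ : Type} [Fintype κ] [DecidableEq κ] (h : κ → ℕ) (J W v : ℕ) (ε x : ℝ)
    [DecidablePred (BadAt h W ε x)] :
    ∑ n ∈ (NS x W v).filter (BadAt h W ε x), ux h J W x n ≤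
      ∑ q ∈ univ.filter (fun q : PS (lev x) W => tp (lev x) W q ≤ ε), ∑ i : κ,
        ∑ n ∈ (NS x W v).filter (fun n => (q : ℕ) ∣ n + h i), ux h J W x n := by
  have h1 : ∀ n ∈ (NS x W v).filter (BadAt h W ε x), ux h J W x n ≤
      ∑ q ∈ univ.filter (fun q : PS (lev x) W => tp (lev x) W q ≤ ε), ∑ i : κ,
        if (q : ℕ) ∣ n + h i then ux h J W x n else 0 := by
    intro n hn
    obtain ⟨q, hq, i, hi⟩ := (mem_filter.1 hn).2
    have hnn : ∀ (q : PS (lev x) W) (i : κ), 0 ≤ if (q : ℕ) ∣ n + h i then ux h J W x n else 0 := by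
      intro q i
      split_ifs
      · exact ux_nonneg h J W x n
      · exact le_rfl
    calc ux h J W x n = if (q : ℕ) ∣ n + h i then ux h J W x n else 0 := by rw [if_pos hi]
      _ ≤ ∑ i : κ, if (q : ℕ) ∣ n + h i then ux h J W x n else 0 :=
          Finset.single_le_sum (f := fun i : κ => if (q : ℕ) ∣ n + h i then ux h J W x n else 0)
            (fun i _ => hnn q i) (mem_univ i)
      _ ≤ _ := Finset.single_le_sum (f := fun q : PS (lev x) W => ∑ i : κ,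
            if (q : ℕ) ∣ n + h i then ux h J W x n else 0)
            (fun q _ => Finset.sum_nonneg fun i _ => hnn q i)
            (mem_filter.2 ⟨mem_univ q, hq⟩)
  refine (Finset.sum_le_sum h1).trans ?_
  refine (Finset.sum_le_sum_of_subset_of_nonneg (Finset.filter_subset _ _) ?_).trans ?_
  · intro n _ _
    refine Finset.sum_nonneg fun q _ => Finset.sum_nonneg fun i _ => ?_
    split_ifs
    · exact ux_nonneg h J W x n
    · exact le_rfl
  · rw [Finset.sum_comm]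
    refine Finset.sum_le_sum fun q _ => ?_
    rw [Finset.sum_comm]
    refine Finset.sum_le_sum fun i _ => ?_
    rw [Finset.sum_filter]

/-- The contribution of one prime and one shift. -/
theorem one_prime (hEn : EnergyStar) (hE : Expand) {κ : Type} [Fintype κ] [DecidableEq κ]
    {J D0 W v : ℕ} {h : κ → ℕ} {c1 c x L Λ : ℝ} (hS : Setup D0 h W v)
    (hD : (Fintype.card κ + 2) ^ 10 ≤ D0) (hF : SieveAt c1 c J D0 h W v x) (hL : 0 < L)
    (hKx : 4 * Real.exp (4 * Fintype.card κ) ^ 2 * L ≤ x ^ (53 / 162 : ℝ))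
    (q : PS (lev x) W) (hWx : ((W * (q : ℕ) : ℕ) : ℝ) ≤ x ^ (23 / 54 : ℝ))
    (H1 : ∀ a : ℝ, a ≤ 1 → ∑ S ∈ (univ : Finset (Finset (PS (lev x) W))).filter
      (fun S => a - tp (lev x) W q < T (tp (lev x) W) S ∧ T (tp (lev x) W) S ≤ a),
        ws (wp (lev x) W) S ≤ Λ)
    (H2 : ∑ S : Finset (PS (lev x) W), (gam (Fintype.card κ) J S ^ 2 -
      gam (Fintype.card κ) J (insert q S) ^ 2) * ws (wp (lev x) W) S ≤ Λ) (i : κ) :
    ∑ n ∈ (NS x W v).filter (fun n => (q : ℕ) ∣ n + h i), ux h J W x n ≤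
      Real.log x / (2 * W) * (4 * (Λ / ((q : ℕ) : ℝ)) * Bx (Fintype.card κ) J W x ^
        (Fintype.card κ - 1) + 2 * (Fintype.card κ : ℝ) ^ 2 * wp (lev x) W q ^ 2 *
          Bx (Fintype.card κ) J W x ^ Fintype.card κ) + 1 / L := by
  obtain ⟨e, he, he'⟩ := exists_equiv q
  have hG := hF.good
  have h1 := sum_q hE hS hD hF.x9 hL hKx hF.R3 hF.Rx q hWx e he he'
    (yw (tp (lev x) W) (gam (Fintype.card κ) J)) (fun c => yw_abs_le hG c)
    (fun c hc => yw_supp hc) i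
  have h2 := hEn (PS (lev x) W) (PS (lev x) (W * (q : ℕ))) κ e (wp (lev x) W) (tp (lev x) W)
    (gam (Fintype.card κ) J) _ _ Λ hG (by rw [he]; exact H1) (by rw [he]; exact H2) i
  rw [wp_comp q e he', he] at h2
  have hq0 : (1 : ℝ) ≤ ((q : ℕ) : ℝ) := by exact_mod_cast (PS_prime q).one_le
  have hlogx : 0 ≤ Real.log x := Real.log_nonneg (by linarith [hF.x9])
  have hW : (0 : ℝ) < W := by exact_mod_cast hS.W_pos
  have hB : 0 ≤ Bx (Fintype.card κ) J W x := zero_le_one.trans hF.Bone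
  have hBdef : B1 (wp (lev x) W) (gam (Fintype.card κ) J) = Bx (Fintype.card κ) J W x := rfl
  rw [hBdef] at h2
  set B := Bx (Fintype.card κ) J W x with hBB
  set K := Fintype.card κ with hK
  refine h1.trans ?_
  gcongr ?_ + 1 / L
  calc Real.log x / (2 * ((W * (q : ℕ) : ℕ) : ℝ)) *
        ∑ c : PS (lev x) (W * (q : ℕ)) → Option κ,
          ws (wp (lev x) (W * (q : ℕ))) (supp c) *
            ys e (wp (lev x) W) i (yw (tp (lev x) W) (gam K J)) c ^ 2
      ≤ Real.log x / (2 * ((W * (q : ℕ) : ℕ) : ℝ)) *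
        (4 * Λ * B ^ (K - 1) + 2 * (K * wp (lev x) W q) ^ 2 * B ^ K) := by
        apply mul_le_mul_of_nonneg_left h2
        positivity
    _ = Real.log x / (2 * W) * (4 * (Λ / ((q : ℕ) : ℝ)) * B ^ (K - 1) +
        2 * (K : ℝ) ^ 2 * wp (lev x) W q ^ 2 * B ^ K / ((q : ℕ) : ℝ)) := by
        push_cast
        field_simp
    _ ≤ _ := by
        have h3 : 2 * (K : ℝ) ^ 2 * wp (lev x) W q ^ 2 * B ^ K / ((q : ℕ) : ℝ) ≤
            2 * (K : ℝ) ^ 2 * wp (lev x) W q ^ 2 * B ^ K := by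
          apply div_le_self (by positivity) hq0
        gcongr

/-- The `n` with small prime factors contribute little. -/
theorem bad_sum (hEn : EnergyStar) (hI : IntervalSum) (hE : Expand) {κ : Type} [Fintype κ]
    [DecidableEq κ] {J D0 W v : ℕ} {h : κ → ℕ} {c1 c ε : ℝ} (hS : Setup D0 h W v)
    (hK0 : 0 < Fintype.card κ) (hJ : 10 * 2 ^ J ≤ 8 * Fintype.card κ * (J + 2))
    (hD : (Fintype.card κ + 2) ^ 10 ≤ D0) (hc : 0 < c) (hcW : (W.totient : ℝ) / (4 * W) ≤ c)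
    (hε : 0 < ε) :
    ∃ X0 : ℝ, ∀ x : ℝ, X0 ≤ x → SieveAt c1 c J D0 h W v x →
      ∀ [DecidablePred (BadAt h W ε x)],
      ∑ n ∈ (NS x W v).filter (BadAt h W ε x), ux h J W x n ≤
        (36 * Fintype.card κ * Kp (Fintype.card κ) J * ε +
          4 * (Fintype.card κ : ℝ) ^ 3 / D0) * Sx (Fintype.card κ) J W x + 1 := by
  obtain ⟨C, hC, hC'⟩ := hI W hS.W_pos
  obtain ⟨Cm, hCm, hCm'⟩ := sum_log_small
  obtain ⟨C2, hC2, hC2'⟩ := sum_inv_small
  set K := Fintype.card κ with hK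
  set ρ : ℝ := (W.totient : ℝ) / W with hρ
  have hWr : (0 : ℝ) < W := by exact_mod_cast hS.W_pos
  have hφ : (0 : ℝ) < W.totient := by exact_mod_cast Nat.totient_pos.2 hS.W_pos
  have hρ0 : 0 < ρ := by positivity
  have hρc : ρ ≤ 4 * c := by
    have : ρ = 4 * ((W.totient : ℝ) / (4 * W)) := by rw [hρ]; field_simp
    rw [this]
    linarith
  have hKr : (0 : ℝ) < K := by exact_mod_cast hK0
  have hKp : 0 < Kp K J := by unfold Kp; positivity
  -- large x
  have hlog : Tendsto (fun x : ℝ => Real.log (lev x)) atTop atTop :=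
    Real.tendsto_log_atTop.comp (tendsto_natCast_atTop_atTop.comp lev_tendsto)
  have hloglog : ∀ᶠ x : ℝ in atTop, Real.log (Real.log (lev x)) ≤
      ρ * ε / (2 * C) * Real.log (lev x) := by
    have h1 := (Real.isLittleO_log_id_atTop).bound (show 0 < ρ * ε / (2 * C) by positivity)
    have h2 := hlog.eventually h1
    filter_upwards [h2, hlog.eventually_ge_atTop 1] with x hx hx1
    simp only [id, Real.norm_eq_abs] at hx
    rw [abs_of_nonneg (by linarith : 0 ≤ Real.log (lev x))] at hx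
    exact (le_abs_self _).trans hx
  have hconst : ∀ᶠ x : ℝ in atTop, 2 * (ρ * Cm + C * C2) / (ρ * ε) ≤ Real.log (lev x) :=
    hlog.eventually_ge_atTop _
  have hx1 : ∀ᶠ x : ℝ in atTop, 4 * Real.exp (4 * K) ^ 2 * x ^ (1 / 50 : ℝ) ≤
      x ^ (53 / 162 : ℝ) := by
    have h1 : Tendsto (fun x : ℝ => x ^ (53 / 162 - 1 / 50 : ℝ)) atTop atTop :=
      tendsto_rpow_atTop (by norm_num)
    filter_upwards [h1.eventually_ge_atTop (4 * Real.exp (4 * K) ^ 2), eventually_gt_atTop 0]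
      with x hx hx0
    calc 4 * Real.exp (4 * K) ^ 2 * x ^ (1 / 50 : ℝ) ≤
          x ^ (53 / 162 - 1 / 50 : ℝ) * x ^ (1 / 50 : ℝ) :=
          mul_le_mul_of_nonneg_right hx (by positivity)
      _ = x ^ (53 / 162 : ℝ) := by rw [← Real.rpow_add hx0]; norm_num
  have hx2 : ∀ᶠ x : ℝ in atTop, (W : ℝ) * x ^ (1 / 81 : ℝ) ≤ x ^ (23 / 54 : ℝ) := by
    have h1 : Tendsto (fun x : ℝ => x ^ (23 / 54 - 1 / 81 : ℝ)) atTop atTop :=
      tendsto_rpow_atTop (by norm_num)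
    filter_upwards [h1.eventually_ge_atTop (W : ℝ), eventually_gt_atTop 0] with x hx hx0
    calc (W : ℝ) * x ^ (1 / 81 : ℝ) ≤ x ^ (23 / 54 - 1 / 81 : ℝ) * x ^ (1 / 81 : ℝ) :=
          mul_le_mul_of_nonneg_right hx (by positivity)
      _ = x ^ (23 / 54 : ℝ) := by rw [← Real.rpow_add hx0]; norm_num
  have hx3 : ∀ᶠ x : ℝ in atTop, (2 * K : ℝ) * x ^ (1 / 81 : ℝ) ≤ x ^ (1 / 50 : ℝ) := by
    have h1 : Tendsto (fun x : ℝ => x ^ (1 / 50 - 1 / 81 : ℝ)) atTop atTop :=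
      tendsto_rpow_atTop (by norm_num)
    filter_upwards [h1.eventually_ge_atTop (2 * K : ℝ), eventually_gt_atTop 0] with x hx hx0
    calc (2 * K : ℝ) * x ^ (1 / 81 : ℝ) ≤ x ^ (1 / 50 - 1 / 81 : ℝ) * x ^ (1 / 81 : ℝ) :=
          mul_le_mul_of_nonneg_right hx (by positivity)
      _ = x ^ (1 / 50 : ℝ) := by rw [← Real.rpow_add hx0]; norm_num
  obtain ⟨X0, hX0⟩ := eventually_atTop.1
    (hloglog.and (hconst.and (hx1.and (hx2.and hx3))))
  refine ⟨X0, fun x hx hF _ => ?_⟩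
  obtain ⟨e1, e2, e3, e4, e5⟩ := hX0 x hx
  set R := lev x with hR
  have hR3 := hF.R3
  have hx0 : (0 : ℝ) < x := by linarith [hF.x9]
  have hlogx : 0 < Real.log x := Real.log_pos (by linarith [hF.x9])
  have hRr : (3 : ℝ) ≤ R := by exact_mod_cast hR3
  have hlogR : 0 < Real.log R := Real.log_pos (by linarith)
  set L : ℝ := x ^ (1 / 50 : ℝ) with hL
  have hL0 : 0 < L := by positivity
  set B := Bx K J W x with hB
  have hB1 : 1 ≤ B := hF.Bone
  have hB0 : 0 < B := by linarith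
  set G := univ.filter (fun q : PS R W => tp R W q ≤ ε) with hG
  refine (bad_union h J W v ε x).trans ?_
  -- one prime
  have hone : ∀ q ∈ G, ∀ i : κ,
      ∑ n ∈ (NS x W v).filter (fun n => (q : ℕ) ∣ n + h i), ux h J W x n ≤
      Real.log x / (2 * W) * (4 * ((ρ * Real.log (q : ℕ) + C) / ((q : ℕ) : ℝ)) * B ^ (K - 1) +
        2 * (K : ℝ) ^ 2 * wp R W q ^ 2 * B ^ K) + 1 / L := by
    intro q _ i
    obtain ⟨H1, H2⟩ := hC' R hR3 q
    have hWq : ((W * (q : ℕ) : ℕ) : ℝ) ≤ x ^ (23 / 54 : ℝ) := by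
      push_cast
      refine le_trans ?_ e4
      have h1 : ((q : ℕ) : ℝ) ≤ R := by exact_mod_cast PS_le q
      have h2 := hF.Rx
      exact mul_le_mul_of_nonneg_left (h1.trans h2) hWr.le
    exact one_prime hEn hE hS hD hF hL0 e3 q hWq H1 (H2 K J hK0 hJ) i
  have hsum1 : ∑ q ∈ G, ∑ i : κ,
        ∑ n ∈ (NS x W v).filter (fun n => (q : ℕ) ∣ n + h i), ux h J W x n ≤
      ∑ q ∈ G, ∑ _i : κ, (Real.log x / (2 * W) *
        (4 * ((ρ * Real.log (q : ℕ) + C) / ((q : ℕ) : ℝ)) * B ^ (K - 1) +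
        2 * (K : ℝ) ^ 2 * wp R W q ^ 2 * B ^ K) + 1 / L) :=
    Finset.sum_le_sum fun q hq => Finset.sum_le_sum fun i _ => hone q hq i
  refine hsum1.trans ?_
  have hsum2 : ∑ q ∈ G, ∑ _i : κ, (Real.log x / (2 * W) *
        (4 * ((ρ * Real.log (q : ℕ) + C) / ((q : ℕ) : ℝ)) * B ^ (K - 1) +
        2 * (K : ℝ) ^ 2 * wp R W q ^ 2 * B ^ K) + 1 / L) =
      K * (Real.log x / (2 * W)) * (4 * B ^ (K - 1) *
        (ρ * ∑ q ∈ G, Real.log (q : ℕ) / ((q : ℕ) : ℝ) + C * ∑ q ∈ G, 1 / ((q : ℕ) : ℝ)) +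
        2 * (K : ℝ) ^ 2 * B ^ K * ∑ q ∈ G, wp R W q ^ 2) + K * (G.card * (1 / L)) := by
    simp only [Finset.sum_const, Finset.card_univ, nsmul_eq_mul, ← hK]
    rw [← Finset.mul_sum, Finset.sum_add_distrib, Finset.sum_const, nsmul_eq_mul,
      ← Finset.mul_sum, Finset.sum_add_distrib]
    have s1 : ∑ q ∈ G, 4 * ((ρ * Real.log (q : ℕ) + C) / ((q : ℕ) : ℝ)) * B ^ (K - 1) =
        4 * B ^ (K - 1) * (ρ * ∑ q ∈ G, Real.log (q : ℕ) / ((q : ℕ) : ℝ) +
          C * ∑ q ∈ G, 1 / ((q : ℕ) : ℝ)) := by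
      rw [Finset.mul_sum, Finset.mul_sum, ← Finset.sum_add_distrib, Finset.mul_sum]
      refine Finset.sum_congr rfl fun q _ => ?_
      ring
    have s2 : ∑ q ∈ G, 2 * (K : ℝ) ^ 2 * wp R W q ^ 2 * B ^ K =
        2 * (K : ℝ) ^ 2 * B ^ K * ∑ q ∈ G, wp R W q ^ 2 := by
      rw [Finset.mul_sum]
      refine Finset.sum_congr rfl fun q _ => ?_
      ring
    rw [s1, s2]
    ring
  rw [hsum2]
  -- the sums over q
  have t1 : ∑ q ∈ G, Real.log (q : ℕ) / ((q : ℕ) : ℝ) ≤ ε * Real.log R + Cm :=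
    hCm' R W ε hR3 hε.le
  have t2 : ∑ q ∈ G, 1 / ((q : ℕ) : ℝ) ≤ Real.log (Real.log R) + C2 := by
    refine le_trans ?_ (hC2' R W hR3)
    apply Finset.sum_le_sum_of_subset_of_nonneg (Finset.filter_subset _ _)
    intro q _ _
    positivity
  have t3 : ∑ q ∈ G, wp R W q ^ 2 ≤ 2 / D0 := by
    refine le_trans ?_ hF.good.sq
    apply Finset.sum_le_sum_of_subset_of_nonneg (Finset.filter_subset _ _)
    intro q _ _
    positivity
  have t4 : K * ((G.card : ℝ) * (1 / L)) ≤ 1 := by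
    have h1 : (G.card : ℝ) ≤ R + 1 := by
      have h2 : G.card ≤ Fintype.card (PS R W) := Finset.card_le_univ _
      exact_mod_cast h2.trans (card_PS_le R W)
    have h2 : (G.card : ℝ) ≤ 2 * x ^ (1 / 81 : ℝ) := by
      have := hF.Rx
      linarith
    rw [mul_one_div, mul_div_assoc', div_le_one hL0]
    calc (K : ℝ) * G.card ≤ K * (2 * x ^ (1 / 81 : ℝ)) := by gcongr
      _ = (2 * K : ℝ) * x ^ (1 / 81 : ℝ) := by ring
      _ ≤ L := e5
  have t5 : ρ * ∑ q ∈ G, Real.log (q : ℕ) / ((q : ℕ) : ℝ) + C * ∑ q ∈ G, 1 / ((q : ℕ) : ℝ) ≤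
      2 * ρ * ε * Real.log R := by
    have h1 : ρ * ∑ q ∈ G, Real.log (q : ℕ) / ((q : ℕ) : ℝ) ≤ ρ * (ε * Real.log R + Cm) :=
      mul_le_mul_of_nonneg_left t1 hρ0.le
    have h2 : C * ∑ q ∈ G, 1 / ((q : ℕ) : ℝ) ≤ C * (Real.log (Real.log R) + C2) :=
      mul_le_mul_of_nonneg_left t2 hC.le
    have h3 : C * Real.log (Real.log R) ≤ ρ * ε / 2 * Real.log R := by
      calc C * Real.log (Real.log R) ≤ C * (ρ * ε / (2 * C) * Real.log R) :=
            mul_le_mul_of_nonneg_left e1 hC.le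
        _ = _ := by field_simp
    have h4 : ρ * Cm + C * C2 ≤ ρ * ε / 2 * Real.log R := by
      rw [div_le_iff₀ (by positivity)] at e2
      linarith
    linarith
  have t6 : B ^ (K - 1) * (2 * ρ * ε * Real.log R) ≤ 9 * ε * Kp K J * B ^ K := by
    have hBK : B ^ K = B ^ (K - 1) * B := by
      rw [← pow_succ]
      congr 1
      omega
    have h1 : c * Real.log R ≤ 10 / 9 * Kp K J * B := by
      have h2 : 9 / 10 / Kp K J * (c * Real.log R) ≤ B := hF.Blow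
      have h3 : c * Real.log R = 10 / 9 * Kp K J * (9 / 10 / Kp K J * (c * Real.log R)) := by
        field_simp
      rw [h3]
      exact mul_le_mul_of_nonneg_left h2 (by positivity)
    have h2 : 2 * ρ * ε * Real.log R ≤ 9 * ε * Kp K J * B := by
      calc 2 * ρ * ε * Real.log R ≤ 2 * (4 * c) * ε * Real.log R := by gcongr
        _ = 8 * ε * (c * Real.log R) := by ring
        _ ≤ 8 * ε * (10 / 9 * Kp K J * B) := by gcongr
        _ ≤ 9 * ε * Kp K J * B := by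
            have : 0 ≤ ε * Kp K J * B := by positivity
            nlinarith
    calc B ^ (K - 1) * (2 * ρ * ε * Real.log R) ≤ B ^ (K - 1) * (9 * ε * Kp K J * B) := by gcongr
      _ = _ := by rw [hBK]; ring
  have t7 : Sx K J W x = Real.log x / (2 * W) * B ^ K := rfl
  have hlx : 0 ≤ Real.log x / (2 * W) := by positivity
  have t8 : 4 * B ^ (K - 1) *
        (ρ * ∑ q ∈ G, Real.log (q : ℕ) / ((q : ℕ) : ℝ) + C * ∑ q ∈ G, 1 / ((q : ℕ) : ℝ)) +
        2 * (K : ℝ) ^ 2 * B ^ K * ∑ q ∈ G, wp R W q ^ 2 ≤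
      (36 * Kp K J * ε + 4 * (K : ℝ) ^ 2 / D0) * B ^ K := by
    have h1 : 4 * B ^ (K - 1) *
        (ρ * ∑ q ∈ G, Real.log (q : ℕ) / ((q : ℕ) : ℝ) + C * ∑ q ∈ G, 1 / ((q : ℕ) : ℝ)) ≤
        4 * (9 * ε * Kp K J * B ^ K) := by
      calc 4 * B ^ (K - 1) * (ρ * ∑ q ∈ G, Real.log (q : ℕ) / ((q : ℕ) : ℝ) +
            C * ∑ q ∈ G, 1 / ((q : ℕ) : ℝ)) ≤ 4 * B ^ (K - 1) * (2 * ρ * ε * Real.log R) := by
            gcongr
        _ = 4 * (B ^ (K - 1) * (2 * ρ * ε * Real.log R)) := by ring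
        _ ≤ _ := by gcongr
    have h2 : 2 * (K : ℝ) ^ 2 * B ^ K * ∑ q ∈ G, wp R W q ^ 2 ≤
        2 * (K : ℝ) ^ 2 * B ^ K * (2 / D0) := by gcongr
    calc _ ≤ 4 * (9 * ε * Kp K J * B ^ K) + 2 * (K : ℝ) ^ 2 * B ^ K * (2 / D0) := add_le_add h1 h2
      _ = _ := by ring
  calc _ ≤ K * (Real.log x / (2 * W)) * ((36 * Kp K J * ε + 4 * (K : ℝ) ^ 2 / D0) * B ^ K) + 1 := by
        gcongr
    _ = _ := by
        rw [t7]
        ring

end Pool.Agent.Helper66.PAP
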