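import Mathlib

/-!
# Project PAP: rough integers have few prime factors
-/

set_option autoImplicit false

open Finset Filter
open ArithmeticFunction (cardFactors)

namespace Pool.Agent.Helper66.PAP

/-- Rough integers have few prime factors. -/
theorem cardFactors_le {y : ℕ} (hy : y ≠ 0) {w L : ℝ} (hw : 1 < w) (hL : (y : ℝ) ≤ w ^ L)
    (h : ∀ p : ℕ, p.Prime → p ∣ y → w < p) : (cardFactors y : ℝ) ≤ L := by
  classical
  rw [ArithmeticFunction.cardFactors_eq_sum_factorization, Finsupp.sum, Nat.support_factorization]
  have h3 : w ^ (((∑ p ∈ y.primeFactors, y.factorization p : ℕ) : ℝ)) ≤ w ^ L := by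
    refine le_trans ?_ hL
    rw [Real.rpow_natCast, ← Finset.prod_pow_eq_pow_sum]
    calc ∏ p ∈ y.primeFactors, w ^ y.factorization p ≤
        ∏ p ∈ y.primeFactors, ((p : ℝ)) ^ y.factorization p := by
          apply Finset.prod_le_prod
          · intro p _; positivity
          · intro p hp
            rw [Nat.mem_primeFactors] at hp
            exact pow_le_pow_left₀ (by linarith) (h p hp.1 hp.2.1).le _
      _ = (y : ℝ) := by
          have h4 := Nat.prod_factorization_pow_eq_self hy
          rw [Finsupp.prod, Nat.support_factorization] at h4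
          exact_mod_cast h4
  have h5 := (Real.rpow_le_rpow_left_iff hw).mp h3
  exact_mod_cast h5

end Pool.Agent.Helper66.PAP
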