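import Pool.Agent.Helper66.PAP.Sum

/-!
# Project PAP: the final sum
-/

set_option autoImplicit false

open Finset Filter
open ArithmeticFunction (cardFactors)

namespace Pool.Agent.Helper66.PAP

open Pool.Agent.Helper1.MT

/-- The good `n` in the class: rough, few prime factors, many primes. -/
def GoodN {k : ℕ} (h : Fin k → ℕ) (c δ : ℝ) (r n : ℕ) : Prop :=
  (∀ i, cardFactors (n + h i) ≤ r) ∧
    (∀ i, ∀ p : ℕ, p.Prime → p ∣ n + h i → (n : ℝ) ^ δ < p) ∧ c * Real.log k ≤ np h n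

theorem log_le_J {k : ℕ} (hk : 1 ≤ k) : Real.log k ≤ (Nat.log 2 k : ℝ) + 2 := by
  have h1 : k < 2 ^ (Nat.log 2 k + 1) := Nat.lt_pow_succ_log_self (by norm_num) k
  have hk0 : (0 : ℝ) < k := by exact_mod_cast hk
  have h2 : Real.log k ≤ Real.log ((2 : ℝ) ^ (Nat.log 2 k + 1)) :=
    Real.log_le_log hk0 (by exact_mod_cast h1.le)
  rw [Real.log_pow] at h2
  have h3 := Real.log_two_lt_d9
  have h4 : (0 : ℝ) ≤ (Nat.log 2 k : ℝ) := Nat.cast_nonneg _
  push_cast at h2
  nlinarith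

theorem J_ok {k : ℕ} (hk : 1 ≤ k) : 10 * 2 ^ Nat.log 2 k ≤ 8 * k * (Nat.log 2 k + 2) := by
  have h1 : 2 ^ Nat.log 2 k ≤ k := Nat.pow_log_le_self 2 (by omega)
  nlinarith [Nat.zero_le (Nat.log 2 k), Nat.zero_le (k * Nat.log 2 k)]

theorem main_sum (hEn : EnergyStar) (hI : IntervalSum) (hWt : WeightLe) :
    ∃ c C₀ : ℝ, 0 < c ∧ 0 < C₀ ∧ ∀ k : ℕ, 1 ≤ k → ∃ (r D0 : ℕ) (δ : ℝ), 0 < r ∧
      (r : ℝ) ≤ C₀ * (k : ℝ) ^ 3 ∧ 0 < δ ∧ 1 ≤ C₀ * (k : ℝ) ^ 3 * δ ∧
      ∀ (h : Fin k → ℕ) (W v : ℕ), Setup D0 h W v → ∃ C : ℝ, 0 < C ∧ ∃ X0 : ℝ, ∀ x : ℝ, X0 ≤ x →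
        ∀ [DecidablePred (GoodN h c δ r)],
        C * Real.log x / Real.log x ^ k ≤
          ∑ n ∈ (NS x W v).filter (GoodN h c δ r), 1 / (n : ℝ) := by
  classical
  have hT := Pool.Agent.Helper87.MT.tupleSum
  have hE := Pool.Agent.Helper46.MT.expand
  obtain ⟨c1, hc1, hb⟩ := sieveAt hT Pool.Agent.Helper9.MT.gramUpper
    Pool.Agent.Helper9.MT.gramLower Pool.Agent.Helper90.MT.lowerMain
    (Pool.Agent.Helper74.MT.sumAll hE) (Pool.Agent.Helper83.MT.sumPrime hE
      Pool.Agent.Helper74.MT.bvError) (Pool.Agent.Helper28.MT.oneDim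
      Pool.Agent.Helper55.MT.sqfreeSum)
  obtain ⟨Cw, hCw, hWt⟩ := hWt
  refine ⟨c1 / 4, 165 + 164 * (4608 / c1), by positivity, by positivity, ?_⟩
  intro k hk
  set J := Nat.log 2 k with hJ
  have hJ0 : (0 : ℝ) ≤ J := Nat.cast_nonneg J
  have hkr : (1 : ℝ) ≤ k := by exact_mod_cast hk
  have hkr0 : (0 : ℝ) < k := by linarith
  have hKp : 0 < Kp k J := by unfold Kp; positivity
  set ε : ℝ := min 1 (c1 / (4608 * (k : ℝ) ^ 3)) with hε
  have hε0 : 0 < ε := lt_min one_pos (by positivity)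
  have hε1 : ε ≤ 1 := min_le_left _ _
  have hε2 : 36 * k * Kp k J * ε ≤ c1 * (J + 2) / (16 * k) := by
    have h1 : ε ≤ c1 / (4608 * (k : ℝ) ^ 3) := min_le_right _ _
    calc 36 * k * Kp k J * ε ≤ 36 * k * Kp k J * (c1 / (4608 * (k : ℝ) ^ 3)) := by gcongr
      _ = c1 * (J + 2) / (16 * k) := by
        unfold Kp
        field_simp
        ring
  have hk3 : (1 : ℝ) ≤ (k : ℝ) ^ 3 := one_le_pow₀ hkr
  have hεinv : 1 / ε ≤ (1 + 4608 / c1) * (k : ℝ) ^ 3 := by
    rw [div_le_iff₀ hε0]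
    rcases le_total 1 (c1 / (4608 * (k : ℝ) ^ 3)) with h1 | h1
    · have h2 : ε = 1 := min_eq_left h1
      rw [h2, mul_one]
      have h3 : 0 ≤ 4608 / c1 * (k : ℝ) ^ 3 := by positivity
      linarith
    · have h2 : ε = c1 / (4608 * (k : ℝ) ^ 3) := min_eq_right h1
      rw [h2]
      have h3 : (4608 / c1) * (k : ℝ) ^ 3 * (c1 / (4608 * (k : ℝ) ^ 3)) = 1 := by
        field_simp
      have h4 : 0 ≤ (k : ℝ) ^ 3 * (c1 / (4608 * (k : ℝ) ^ 3)) := by positivity
      nlinarith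
  set D0 : ℕ := max ((k + 2) ^ 10) ⌈64 * (k : ℝ) ^ 4 / (c1 * (J + 2))⌉₊ with hD0
  have hD0a : (k + 2) ^ 10 ≤ D0 := le_max_left _ _
  have hD0pos : (0 : ℝ) < D0 := by
    have : 0 < D0 := lt_of_lt_of_le (by positivity) hD0a
    exact_mod_cast this
  have hD0b : 4 * (k : ℝ) ^ 3 / D0 ≤ c1 * (J + 2) / (16 * k) := by
    have h1 : 64 * (k : ℝ) ^ 4 / (c1 * (J + 2)) ≤ D0 :=
      (Nat.le_ceil _).trans (Nat.cast_le.2 (le_max_right _ _))
    rw [div_le_iff₀ (by positivity)] at h1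
    rw [div_le_div_iff₀ hD0pos (by positivity)]
    nlinarith
  have hcard : Fintype.card (Fin k) = k := Fintype.card_fin k
  have hrle : ((⌈164 / ε⌉₊ : ℕ) : ℝ) ≤ (165 + 164 * (4608 / c1)) * (k : ℝ) ^ 3 := by
    have h1 := Nat.ceil_lt_add_one (show 0 ≤ 164 / ε by positivity)
    have h2 : 164 / ε = 164 * (1 / ε) := by ring
    rw [h2] at h1
    rw [h2]
    nlinarith
  have hδle : 1 ≤ (165 + 164 * (4608 / c1)) * (k : ℝ) ^ 3 * (ε / 82) := by
    rw [div_le_iff₀ hε0] at hεinv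
    have h1 : 0 ≤ 4608 / c1 := by positivity
    have h2 : 0 ≤ (k : ℝ) ^ 3 * ε := by positivity
    have h3 : 0 ≤ (4608 / c1) * ((k : ℝ) ^ 3 * ε) := mul_nonneg h1 h2
    nlinarith
  refine ⟨⌈164 / ε⌉₊, D0, ε / 82, Nat.ceil_pos.2 (by positivity), hrle, by positivity, hδle, ?_⟩
  set r := ⌈164 / ε⌉₊ with hr
  intro h W v hS
  have hJok : 10 * 2 ^ J ≤ 8 * Fintype.card (Fin k) * (J + 2) := by rw [hcard]; exact J_ok hk
  obtain ⟨c, hc, hcW, X1, hX1⟩ := hb (Fin k) J D0 h W v (by rw [hcard]; omega) hJok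
    (by rw [hcard]; exact hD0a) hS
  obtain ⟨X2, hX2⟩ := bad_sum (c1 := c1) (c := c) (ε := ε) hEn hI hE hS (by rw [hcard]; omega)
    hJok (by rw [hcard]; exact hD0a) hc hcW hε0
  have hWr : (0 : ℝ) < W := by exact_mod_cast hS.W_pos
  -- the constant
  set c2 : ℝ := 9 / 10 / Kp k J * c with hc2
  have hc20 : 0 < c2 := by positivity
  set M0 : ℝ := ((2 : ℝ) ^ (k * r) * Cw ^ k) ^ 2 with hM0
  have hM00 : 0 < M0 := by positivity
  set Cf : ℝ := c1 * (J + 2) / (4 * k) * (1 / (2 * W)) * c2 ^ k / M0 with hCf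
  have hCf0 : 0 < Cf := by positivity
  refine ⟨Cf, hCf0, ?_⟩
  -- large x
  have hlogt := Real.tendsto_log_atTop
  have hev : ∀ᶠ x : ℝ in atTop, X1 ≤ x ∧ X2 ≤ x ∧
      (2 * (k : ℝ) + c1 * (J + 2) / 4) / (3 / 8 * (c1 * (J + 2))) * (2 * W) ≤ Real.log x ∧
      (∀ i : Fin k, (h i : ℝ) ≤ x) ∧ 2 ≤ x :=
    (eventually_ge_atTop X1).and ((eventually_ge_atTop X2).and
      ((hlogt.eventually_ge_atTop _).and (((eventually_all).2 fun i =>
        eventually_ge_atTop (h i : ℝ)).and (eventually_ge_atTop 2))))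
  obtain ⟨X0, hX0⟩ := eventually_atTop.1 hev
  refine ⟨X0, fun x hx _ => ?_⟩
  obtain ⟨e1, e2, e3, e4, e5⟩ := hX0 x hx
  have hF := hX1 x e1
  have hbad := hX2 x e2 hF
  rw [hcard] at hbad
  have hx0 : (0 : ℝ) < x := by linarith
  have hlogx : 0 < Real.log x := Real.log_pos (by linarith)
  have hR3 := hF.R3
  set R := lev x with hR
  have hRr : (3 : ℝ) ≤ R := by exact_mod_cast hR3
  have hR0 : (0 : ℝ) < R := by linarith
  have hlogR : 0 < Real.log R := Real.log_pos (by linarith)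
  have hlogRx : Real.log R ≤ Real.log x := by
    apply Real.log_le_log hR0
    refine hF.Rx.trans ?_
    calc x ^ (1 / 81 : ℝ) ≤ x ^ (1 : ℝ) :=
          Real.rpow_le_rpow_of_exponent_le (by linarith) (by norm_num)
      _ = x := Real.rpow_one x
  set B := Bx k J W x with hB
  have hB1 : 1 ≤ B := by
    have := hF.Bone
    rw [hcard] at this
    exact this
  have hBlow : c2 * Real.log R ≤ B := by
    have := hF.Blow
    rw [hcard] at this
    calc c2 * Real.log R = 9 / 10 / Kp k J * (c * Real.log R) := by rw [hc2]; ring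
      _ ≤ B := this
  set S := Sx k J W x with hSdef
  have hSeq : S = Real.log x / (2 * W) * B ^ k := rfl
  have hlx : 0 < Real.log x / (2 * W) := by positivity
  have hS1 : Real.log x / (2 * W) ≤ S := by
    rw [hSeq]
    exact le_mul_of_one_le_right hlx.le (one_le_pow₀ hB1)
  have hS0 : 0 ≤ S := hlx.le.trans hS1
  have hSbig : 2 * (k : ℝ) + c1 * (J + 2) / 4 ≤ 3 / 8 * (c1 * (J + 2)) * S := by
    have h1 : (2 * (k : ℝ) + c1 * (J + 2) / 4) / (3 / 8 * (c1 * (J + 2))) ≤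
        Real.log x / (2 * W) := by
      rw [le_div_iff₀ (by positivity)]
      exact e3
    have h2 := h1.trans hS1
    rw [div_le_iff₀ (by positivity)] at h2
    linarith
  have hmain := rough_many (c := c) (ε := ε) (δ1 := 36 * k * Kp k J * ε + 4 * (k : ℝ) ^ 3 / D0)
    (by rw [hcard]; omega) hc1 hF (by rw [hcard]; exact hbad)
    (by
      rw [hcard]
      have h1 : c1 * (J + 2) / (16 * (k : ℝ)) + c1 * (J + 2) / (16 * k) =
          c1 * (J + 2) / (8 * k) := by
        field_simp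
        ring
      linarith)
    (by rw [hcard]; exact hSbig) (by rw [hcard]; exact hS0)
  rw [hcard] at hmain
  -- the members of the set are good
  have hgood : ∀ n ∈ (NS x W v).filter (fun n => ¬ BadAt h W ε x n ∧
      c1 * (J + 2) / 4 ≤ np h n), GoodN h (c1 / 4) (ε / 82) r n ∧
      ux h J W x n ≤ M0 * Real.log R ^ (2 * k) * (1 / (n : ℝ)) := by
    intro n hn
    rw [mem_filter] at hn
    obtain ⟨hnNS, hnB, hnp⟩ := hn
    have hnmod : n ≡ v [MOD W] := NS_mod hnNS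
    have hngt : R < n := NS_gt hnNS (by linarith)
    have hnx : (n : ℝ) ≤ x := by
      unfold NS at hnNS
      rw [mem_filter, mem_Ioc] at hnNS
      exact (Nat.le_floor_iff hx0.le).1 hnNS.1.2
    have hn0 : 0 < n := by omega
    -- all prime factors are large
    have hbig : ∀ i, ∀ p : ℕ, p.Prime → p ∣ n + h i → (R : ℝ) ^ ε < p := by
      intro i p hp hpd
      by_cases hpR : p ≤ R
      · have hpW : ¬ p ∣ W := by
          intro hpW
          have h1 : n + h i ≡ v + h i [MOD p] := (hnmod.add_right _).of_dvd hpW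
          have h2 : p ∣ v + h i := (Nat.ModEq.dvd_iff h1 dvd_rfl).1 hpd
          have h3 : p ∣ Nat.gcd (v + h i) W := Nat.dvd_gcd h2 hpW
          rw [hS.cop i] at h3
          exact hp.one_lt.ne' (Nat.dvd_one.1 h3)
        have hmem : p ∈ PS R W := mem_PS.2 ⟨hpR, hp, hpW⟩
        have h4 : ¬ tp R W ⟨p, hmem⟩ ≤ ε := fun h5 => hnB ⟨⟨p, hmem⟩, h5, i, hpd⟩
        push Not at h4
        unfold tp at h4
        rw [lt_div_iff₀ hlogR, ← Real.log_rpow hR0] at h4
        have hp0 : (0 : ℝ) < p := by exact_mod_cast hp.pos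
        exact (Real.log_lt_log_iff (Real.rpow_pos_of_pos hR0 _) hp0).1 h4
      · have h1 : (R : ℝ) < p := by exact_mod_cast (not_le.1 hpR)
        refine lt_of_le_of_lt ?_ h1
        calc (R : ℝ) ^ ε ≤ (R : ℝ) ^ (1 : ℝ) :=
              Real.rpow_le_rpow_of_exponent_le (by linarith) hε1
          _ = R := Real.rpow_one _
    have hw1 : (1 : ℝ) < (R : ℝ) ^ ε := Real.one_lt_rpow (by linarith) hε0
    have hfew : ∀ i, cardFactors (n + h i) ≤ r := by
      intro i
      have h1 : ((n + h i : ℕ) : ℝ) ≤ ((R : ℝ) ^ ε) ^ (164 / ε) := by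
        rw [← Real.rpow_mul hR0.le, mul_div_cancel₀ _ hε0.ne']
        have h2 : ((n + h i : ℕ) : ℝ) ≤ x ^ 2 := by
          push_cast
          have := e4 i
          nlinarith
        refine h2.trans ?_
        have h3 : x ≤ (R : ℝ) ^ (82 : ℝ) := by
          rw [← Real.log_le_log_iff hx0 (Real.rpow_pos_of_pos hR0 _), Real.log_rpow hR0]
          exact hF.logx
        calc x ^ 2 ≤ ((R : ℝ) ^ (82 : ℝ)) ^ 2 := pow_le_pow_left₀ hx0.le h3 2
          _ = (R : ℝ) ^ (164 : ℝ) := by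
            rw [← Real.rpow_natCast, ← Real.rpow_mul hR0.le]
            norm_num
      have h2 := cardFactors_le (y := n + h i) (by omega) hw1 h1 (hbig i)
      exact_mod_cast h2.trans (Nat.le_ceil _)
    refine ⟨⟨hfew, ?_, ?_⟩, ?_⟩
    · intro i p hp hpd
      refine lt_of_le_of_lt ?_ (hbig i p hp hpd)
      have hnr : (0 : ℝ) < n := by exact_mod_cast hn0
      calc (n : ℝ) ^ (ε / 82) ≤ x ^ (ε / 82) :=
            Real.rpow_le_rpow hnr.le hnx (by positivity)
        _ ≤ (R : ℝ) ^ ε := by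
            rw [← Real.log_le_log_iff (Real.rpow_pos_of_pos hx0 _) (Real.rpow_pos_of_pos hR0 _),
              Real.log_rpow hx0, Real.log_rpow hR0]
            have := hF.logx
            calc ε / 82 * Real.log x ≤ ε / 82 * (82 * Real.log R) := by gcongr
              _ = ε * Real.log R := by ring
    · refine le_trans ?_ hnp
      have h1 := log_le_J hk
      calc c1 / 4 * Real.log k ≤ c1 / 4 * (J + 2) := by gcongr
        _ = _ := by ring
    · have hω : ∀ i, (n + h i).primeFactors.card ≤ r := by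
        intro i
        refine le_trans ?_ (hfew i)
        rw [ArithmeticFunction.cardFactors_apply]
        exact List.toFinset_card_le _
      have h1 := hWt (Fin k) R W h (yw (tp R W) (gam (Fintype.card (Fin k)) J)) n r hR3
        (fun c => yw_abs_le hF.good c) hn0 hω
      rw [hcard] at h1
      have h2 : ux h J W x n = (1 / (n : ℝ)) *
          sw h (lam (wp R W) (yw (tp R W) (gam (Fintype.card (Fin k)) J))) n := rfl
      rw [h2, hcard, mul_comm]
      apply mul_le_mul_of_nonneg_right _ (by positivity)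
      refine h1.trans (le_of_eq ?_)
      rw [hM0]
      ring
  -- the final estimate
  set Gs := (NS x W v).filter (fun n => ¬ BadAt h W ε x n ∧ c1 * (J + 2) / 4 ≤ np h n) with hGs
  have hfin1 : ∑ n ∈ Gs, ux h J W x n ≤ M0 * Real.log R ^ (2 * k) *
      ∑ n ∈ (NS x W v).filter (GoodN h (c1 / 4) (ε / 82) r), 1 / (n : ℝ) := by
    calc ∑ n ∈ Gs, ux h J W x n ≤ ∑ n ∈ Gs, M0 * Real.log R ^ (2 * k) * (1 / (n : ℝ)) :=
          Finset.sum_le_sum fun n hn => (hgood n hn).2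
      _ = M0 * Real.log R ^ (2 * k) * ∑ n ∈ Gs, 1 / (n : ℝ) := by rw [Finset.mul_sum]
      _ ≤ _ := by
          apply mul_le_mul_of_nonneg_left _ (by positivity)
          apply Finset.sum_le_sum_of_subset_of_nonneg
          · intro n hn
            rw [mem_filter]
            exact ⟨(mem_filter.1 hn).1, (hgood n hn).1⟩
          · intro n _ _
            positivity
  have hfin2 := hmain.trans hfin1
  set Z := ∑ n ∈ (NS x W v).filter (GoodN h (c1 / 4) (ε / 82) r), 1 / (n : ℝ) with hZ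
  have hfin3 : c1 * (J + 2) / (4 * k) * (Real.log x / (2 * W) * (c2 * Real.log R) ^ k) ≤
      M0 * Real.log R ^ (2 * k) * Z := by
    refine le_trans ?_ hfin2
    apply mul_le_mul_of_nonneg_left _ (by positivity)
    change _ ≤ Real.log x / (2 * W) * B ^ k
    gcongr
  have hfin4 : Cf * Real.log x / Real.log R ^ k ≤ Z := by
    rw [div_le_iff₀ (by positivity)]
    have h1 : Cf * Real.log x * (M0 * Real.log R ^ k) ≤
        Z * Real.log R ^ k * (M0 * Real.log R ^ k) := by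
      have hCf' : Cf * M0 = c1 * (J + 2) / (4 * k) * (1 / (2 * W)) * c2 ^ k := by
        rw [hCf]
        exact div_mul_cancel₀ _ hM00.ne'
      calc Cf * Real.log x * (M0 * Real.log R ^ k) =
          (Cf * M0) * (Real.log x * Real.log R ^ k) := by ring
        _ = c1 * (J + 2) / (4 * k) * (Real.log x / (2 * W) * (c2 * Real.log R) ^ k) := by
            rw [hCf', mul_pow]
            ring
        _ ≤ M0 * Real.log R ^ (2 * k) * Z := hfin3
        _ = _ := by ring
    exact le_of_mul_le_mul_right h1 (by positivity)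
  refine le_trans ?_ hfin4
  gcongr

end Pool.Agent.Helper66.PAP
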