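import Pool.Agent.Helper66.PAP.Defs

/-!
# Project PAP: the congruence class
-/

set_option autoImplicit false

open Finset

namespace Pool.Agent.Helper66.PAP

open Pool.Agent.Helper1.MT

theorem progression : Progression := by
  classical
  intro k D0 d R hk hd hkd
  set B := D0 + 2 * k + k * d with hB
  set r : ℕ → ℕ := fun j => Nat.nth Nat.Prime (B + j) with hr
  set T := (k - 1) * d with hT
  set J := (range (T * (R + 1))).filter (fun j => ¬ d ∣ j / (R + 1)) with hJ
  set S := (range (B + 1)).filter Nat.Prime ∪ J.image r with hS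
  set tt : ℕ → ℕ := fun p => (Nat.count Nat.Prime p - B) / (R + 1) with htt
  set res : ℕ → ℕ := fun p => if p ≤ B then (if p ∣ d then 1 else d) else (p - 1) * tt p
    with hres
  have hrprime : ∀ j, (r j).Prime := fun j => Nat.prime_nth_prime _
  have hrB : ∀ j, B < r j := by
    intro j
    have := Nat.add_two_le_nth_prime (B + j)
    simp only [hr]
    omega
  have htr : ∀ j, tt (r j) = j / (R + 1) := by
    intro j
    simp only [htt, hr]
    rw [Nat.count_nth_of_infinite Nat.infinite_setOfPred_prime]
    congr 1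
    omega
  have hSprime : ∀ p ∈ S, p.Prime := by
    intro p hp
    rw [hS, Finset.mem_union, Finset.mem_filter, Finset.mem_image] at hp
    rcases hp with hp | ⟨j, _, rfl⟩
    · exact hp.2
    · exact hrprime j
  have hSsmall : ∀ p : ℕ, p.Prime → p ≤ B → p ∈ S := by
    intro p hp hpB
    rw [hS, Finset.mem_union, Finset.mem_filter, Finset.mem_range]
    exact Or.inl ⟨by omega, hp⟩
  have hs0 : ∀ p ∈ S, (fun p : ℕ => p) p ≠ 0 := fun p hp => (hSprime p hp).ne_zero
  have hpair : Set.Pairwise (S : Set ℕ) (Function.onFun Nat.Coprime (fun p : ℕ => p)) := by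
    intro p hp q hq hpq
    exact (Nat.coprime_primes (hSprime p hp) (hSprime q hq)).mpr hpq
  obtain ⟨a0, ha0⟩ := Nat.chineseRemainderOfFinset res (fun p : ℕ => p) S hs0 hpair
  set M := ∏ p ∈ S, p with hM
  have hM0 : 0 < M := Finset.prod_pos fun p hp => (hSprime p hp).pos
  have hMdvd : ∀ p ∈ S, p ∣ M := fun p hp => Finset.dvd_prod_of_mem (fun p : ℕ => p) hp
  have hcong : ∀ x : ℕ, ∀ p ∈ S, a0 + x ≡ res p + x [MOD p] := fun x p hp =>
    Nat.ModEq.add_right _ (ha0 p hp)
  have hkdB : k * d ≤ B := by omega
  have hd_le : d ≤ k * d := Nat.le_mul_of_pos_left d (by omega)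
  have hcop : ∀ i : ℕ, i < k → ∀ p ∈ S, ¬ p ∣ a0 + i * d := by
    intro i hi p hp hdvd
    have hpp := hSprime p hp
    have hdvd1 : p ∣ res p + i * d := (Nat.ModEq.dvd_iff (hcong (i * d) p hp) dvd_rfl).mp hdvd
    by_cases hpB : p ≤ B
    · by_cases hpd : p ∣ d
      · have h1 : res p = 1 := by simp only [hres]; rw [if_pos hpB, if_pos hpd]
        rw [h1] at hdvd1
        have h2 : p ∣ 1 := (Nat.dvd_add_left (Dvd.dvd.mul_left hpd i)).mp hdvd1
        exact hpp.one_lt.ne' (Nat.dvd_one.mp h2)
      · have h1 : res p = d := by simp only [hres]; rw [if_pos hpB, if_neg hpd]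
        have h2 : res p + i * d = (i + 1) * d := by rw [h1]; ring
        rw [h2] at hdvd1
        have h3 : p ∣ i + 1 := (hpp.dvd_mul.mp hdvd1).resolve_right hpd
        have h4 : p ≤ i + 1 := Nat.le_of_dvd (by omega) h3
        exact hpd (hkd p hpp (by omega))
    · rw [hS, Finset.mem_union, Finset.mem_filter, Finset.mem_image, Finset.mem_range] at hp
      obtain ⟨j, hj, rfl⟩ := hp.resolve_left (fun h => hpB (by omega))
      rw [hJ, Finset.mem_filter, Finset.mem_range] at hj
      have h1 : res (r j) = (r j - 1) * (j / (R + 1)) := by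
        simp only [hres]
        rw [if_neg hpB, htr]
      set t := j / (R + 1) with ht
      have htT : t < T := by
        rw [ht]
        exact Nat.div_lt_of_lt_mul (by rw [mul_comm]; exact hj.1)
      have htk : t < k * d := lt_of_lt_of_le htT (Nat.mul_le_mul_right d (by omega))
      have hik : i * d < k * d := Nat.mul_lt_mul_of_pos_right hi hd
      have h2 : r j ∣ (r j - 1) * t + i * d := by rw [← h1]; exact hdvd1
      have h3 : r j = (r j - 1) + 1 := by
        have := hpp.pos
        omega
      have h4 : i * d ≡ t [MOD r j] := by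
        have h5 : (r j - 1) * t + i * d ≡ (r j - 1) * t + t [MOD r j] := by
          have h6 : (r j - 1) * t + t = r j * t := by
            conv_rhs => rw [h3]
            ring
          rw [h6]
          have h7 : r j ∣ r j * t := Dvd.intro _ rfl
          exact ((Nat.modEq_zero_iff_dvd).mpr h2).trans ((Nat.modEq_zero_iff_dvd).mpr h7).symm
        exact Nat.ModEq.add_left_cancel' _ h5
      have h8 : i * d = t := by
        apply Nat.ModEq.eq_of_lt_of_lt h4
        · have := hrB j; omega
        · have := hrB j; omega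
      exact hj.2 (h8 ▸ Dvd.intro_left i rfl)
  refine ⟨M, a0, ⟨hM0, ?_, ?_, ?_, ?_⟩, ?_⟩
  · intro p hp hpD
    exact hMdvd p (hSsmall p hp (by omega))
  · intro i j hij p hp hdvd
    apply hMdvd p (hSsmall p hp _)
    have h1 : (((i : ℕ) * d : ℕ) : ℤ) - (((j : ℕ) * d : ℕ) : ℤ) =
        (((i : ℕ) : ℤ) - ((j : ℕ) : ℤ)) * (d : ℤ) := by push_cast; ring
    rw [h1] at hdvd
    have hpi : Prime (p : ℤ) := Nat.prime_iff_prime_int.mp hp
    rcases hpi.dvd_or_dvd hdvd with h2 | h2
    · have h3 : ((i : ℕ) : ℤ) - ((j : ℕ) : ℤ) ≠ 0 := by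
        intro h
        apply hij
        ext
        omega
      have h4 := Int.le_of_dvd (abs_pos.mpr h3) ((dvd_abs _ _).mpr h2)
      have hi := i.2
      have hj := j.2
      have h5 : |((i : ℕ) : ℤ) - ((j : ℕ) : ℤ)| ≤ k := by
        rw [abs_le]
        constructor <;> omega
      omega
    · have h3 : p ∣ d := by exact_mod_cast h2
      have h4 := Nat.le_of_dvd hd h3
      omega
  · intro i j hij
    have h1 : (i : ℕ) * d = (j : ℕ) * d := hij
    exact Fin.ext (Nat.eq_of_mul_eq_mul_right hd h1)
  · intro i
    rw [hM]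
    apply Nat.Coprime.prod_right
    intro p hp
    rw [Nat.coprime_comm]
    exact ((hSprime p hp).coprime_iff_not_dvd).mpr (hcop i i.2 p hp)
  · intro n hn hnv t ht hdt
    have hsub : (range (R + 1)).image (fun s => r (t * (R + 1) + s)) ⊆
        (n + t).primeFactors := by
      intro p hp
      rw [Finset.mem_image] at hp
      obtain ⟨s, hs, rfl⟩ := hp
      rw [Finset.mem_range] at hs
      have hdiv : (t * (R + 1) + s) / (R + 1) = t := by
        rw [mul_comm, Nat.mul_add_div (by omega), Nat.div_eq_of_lt hs, add_zero]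
      have hjJ : t * (R + 1) + s ∈ J := by
        rw [hJ, Finset.mem_filter, Finset.mem_range, hdiv]
        refine ⟨?_, hdt⟩
        calc t * (R + 1) + s < t * (R + 1) + (R + 1) := by omega
          _ = (t + 1) * (R + 1) := by ring
          _ ≤ T * (R + 1) := Nat.mul_le_mul_right _ ht
      have hmemS : r (t * (R + 1) + s) ∈ S := by
        rw [hS, Finset.mem_union]
        exact Or.inr (Finset.mem_image_of_mem _ hjJ)
      have hpp := hrprime (t * (R + 1) + s)
      rw [Nat.mem_primeFactors]
      refine ⟨hpp, ?_, by omega⟩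
      have hc : n + t ≡ res (r (t * (R + 1) + s)) + t [MOD r (t * (R + 1) + s)] :=
        (Nat.ModEq.add_right t (hnv.of_dvd (hMdvd _ hmemS))).trans (hcong t _ hmemS)
      have h1 : res (r (t * (R + 1) + s)) = (r (t * (R + 1) + s) - 1) * t := by
        simp only [hres]
        have := hrB (t * (R + 1) + s)
        rw [if_neg (by omega), htr, hdiv]
      rw [h1] at hc
      have h3 : r (t * (R + 1) + s) = (r (t * (R + 1) + s) - 1) + 1 := by
        have := hpp.pos
        omega
      have h6 : (r (t * (R + 1) + s) - 1) * t + t = r (t * (R + 1) + s) * t := by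
        conv_rhs => rw [h3]
        ring
      rw [h6] at hc
      exact (Nat.ModEq.dvd_iff hc dvd_rfl).mpr (Dvd.intro _ rfl)
    have hinj : Set.InjOn (fun s => r (t * (R + 1) + s)) (range (R + 1)) := by
      intro s _ s' _ h
      have h1 : B + (t * (R + 1) + s) = B + (t * (R + 1) + s') :=
        Nat.nth_injective Nat.infinite_setOfPred_prime h
      omega
    have hcard := Finset.card_le_card hsub
    rw [Finset.card_image_of_injOn hinj, Finset.card_range] at hcard
    omega

end Pool.Agent.Helper66.PAP
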