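import Pool.Agent.Helper66.PAP.Defs
import Pool.Agent.Helper1.MT.Bounds
import Pool.Agent.Helper18.MT.SumGen
import Pool.Agent.Helper9.MT.Gram

/-!
# Project PAP: the sieve sum over the multiples of a small prime
-/

set_option autoImplicit false

open Finset

namespace Pool.Agent.Helper66.PAP

open Pool.Agent.Helper1.MT

section Abstract

variable {ι ι' κ : Type}

theorem ext_at_none (e : Option ι' ≃ ι) (c : ι' → Option κ) (a : Option κ) :
    ext e c a (e none) = a := by
  simp [ext]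

theorem ext_at_some (e : Option ι' ≃ ι) (c : ι' → Option κ) (a : Option κ) (p : ι') :
    ext e c a (e (some p)) = c p := by
  simp [ext]

/-- A colouring of `ι` is a colouring of `ι'` and a colour of the additional point. -/
def extEquiv (e : Option ι' ≃ ι) : (ι' → Option κ) × Option κ ≃ (ι → Option κ) where
  toFun x := ext e x.1 x.2
  invFun c := (fun p => c (e (some p)), c (e none))
  left_inv x := by
    refine Prod.ext ?_ ?_
    · funext p
      exact ext_at_some e x.1 x.2 p
    · exact ext_at_none e x.1 x.2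
  right_inv c := by
    funext p
    obtain ⟨o, rfl⟩ := e.surjective p
    cases o with
    | none => exact ext_at_none e _ _
    | some p => exact ext_at_some e _ _ p

variable [Fintype ι] [Fintype ι'] [Fintype κ] [DecidableEq ι] [DecidableEq ι'] [DecidableEq κ]

theorem sum_ext (e : Option ι' ≃ ι) (F : (ι → Option κ) → ℝ) :
    ∑ c, F c = ∑ c : ι' → Option κ, ∑ a : Option κ, F (ext e c a) := by
  rw [← (extEquiv e).sum_comp, Fintype.sum_prod_type]
  rfl

omit [Fintype κ] [DecidableEq ι] [DecidableEq ι'] [DecidableEq κ] in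
theorem prod_ext (e : Option ι' ≃ ι) (g : ι → ℝ) :
    ∏ p, g p = g (e none) * ∏ p : ι', g (e (some p)) := by
  rw [← e.prod_comp, Fintype.prod_option]

theorem lam_ext (e : Option ι' ≃ ι) (w : ι → ℝ) (i : κ) (y : (ι → Option κ) → ℝ)
    (c : ι' → Option κ) :
    lam w y (ext e c none) + lam w y (ext e c (some i)) =
      lam (fun p => w (e (some p))) (ys e w i y) c := by
  unfold lam
  rw [sum_ext e, sum_ext e, ← Finset.sum_add_distrib]
  refine Finset.sum_congr rfl fun c' _ => ?_
  rw [Fintype.sum_option, Fintype.sum_option]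
  simp only [prod_ext e, ext_at_none, ext_at_some]
  set P := ∏ p : ι', inv (w (e (some p))) (c p) (c' p) with hP
  have i1 : inv (w (e none)) (none : Option κ) none = 1 := rfl
  have i2 : inv (w (e none)) (some i) none = 0 := rfl
  have i3 : ∀ x : κ, inv (w (e none)) (none : Option κ) (some x) = -w (e none) := fun _ => rfl
  have i4 : ∀ x : κ, inv (w (e none)) (some i) (some x) = if i = x then (1 : ℝ) else 0 :=
    fun _ => rfl
  simp only [i1, i2, i3, i4]
  have h1 : ∑ x : κ, (if i = x then (1 : ℝ) else 0) * P * y (ext e c' (some x)) =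
      P * y (ext e c' (some i)) := by
    rw [Finset.sum_eq_single i]
    · rw [if_pos rfl, one_mul]
    · intro b _ hb
      rw [if_neg (Ne.symm hb), zero_mul, zero_mul]
    · intro h
      exact absurd (mem_univ i) h
  rw [h1, zero_mul, zero_mul, zero_add, one_mul]
  unfold ys
  have h2 : ∑ x : κ, -w (e none) * P * y (ext e c' (some x)) =
      -(P * (w (e none) * ∑ j, y (ext e c' (some j)))) := by
    rw [Finset.mul_sum, Finset.mul_sum, ← Finset.sum_neg_distrib]
    refine Finset.sum_congr rfl fun j _ => ?_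
    ring
  rw [h2]
  ring

end Abstract

section Arith

variable {κ : Type} [Fintype κ] [DecidableEq κ] {R W : ℕ}

theorem PS_not_dvd (p : PS R W) : ¬ (p : ℕ) ∣ W := by
  have h := p.2
  simp only [PS, mem_filter] at h
  exact h.2.2

theorem mem_PS {p : ℕ} : p ∈ PS R W ↔ p ≤ R ∧ p.Prime ∧ ¬ p ∣ W := by
  simp only [PS, mem_filter, mem_range, Nat.lt_succ_iff]

theorem mem_PS_mul (q : PS R W) {p : ℕ} : p ∈ PS R (W * (q : ℕ)) ↔ p ∈ PS R W ∧ p ≠ q := by
  rw [mem_PS, mem_PS]
  constructor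
  · rintro ⟨h1, h2, h3⟩
    refine ⟨⟨h1, h2, fun h => h3 (Dvd.dvd.mul_right h _)⟩, ?_⟩
    rintro rfl
    exact h3 (dvd_mul_left _ _)
  · rintro ⟨⟨h1, h2, h3⟩, h4⟩
    refine ⟨h1, h2, ?_⟩
    intro h
    rcases (h2.dvd_mul).1 h with h5 | h5
    · exact h3 h5
    · exact h4 ((Nat.prime_dvd_prime_iff_eq h2 (PS_prime q)).1 h5)

theorem exists_equiv (q : PS R W) : ∃ e : Option (PS R (W * (q : ℕ))) ≃ PS R W,
    e none = q ∧ ∀ p, ((e (some p) : PS R W) : ℕ) = (p : ℕ) := by
  classical
  refine ⟨{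
    toFun := fun o => o.elim q (fun p => ⟨p, ((mem_PS_mul q).1 p.2).1⟩)
    invFun := fun p => if h : (p : ℕ) = q then none else some ⟨p, (mem_PS_mul q).2 ⟨p.2, h⟩⟩
    left_inv := ?_
    right_inv := ?_ }, rfl, fun p => rfl⟩
  · intro o
    cases o with
    | none => simp
    | some p =>
      have h := ((mem_PS_mul q).1 p.2).2
      simp only [Option.elim_some]
      rw [dif_neg h]
  · intro p
    by_cases h : (p : ℕ) = q
    · simp only [dif_pos h, Option.elim_none]
      exact (Subtype.ext h).symm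
    · simp only [dif_neg h, Option.elim_some]

theorem Dv_ext {h : κ → ℕ} (q : PS R W) (e : Option (PS R (W * (q : ℕ))) ≃ PS R W)
    (he : e none = q) (he' : ∀ p, ((e (some p) : PS R W) : ℕ) = (p : ℕ))
    (c : PS R (W * (q : ℕ)) → Option κ) (a : Option κ) (n : ℕ) :
    Dv h (ext e c a) n ↔ Dv h c n ∧ ∀ j, a = some j → (q : ℕ) ∣ n + h j := by
  unfold Dv
  constructor
  · intro H
    refine ⟨fun p i hp => ?_, fun j hj => ?_⟩
    · have := H (e (some p)) i (by rw [ext_at_some]; exact hp)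
      rwa [he' p] at this
    · have := H (e none) j (by rw [ext_at_none]; exact hj)
      rwa [he] at this
  · rintro ⟨H1, H2⟩ p i hp
    obtain ⟨o, rfl⟩ := e.surjective p
    cases o with
    | none =>
      rw [ext_at_none] at hp
      rw [he]
      exact H2 i hp
    | some p =>
      rw [ext_at_some] at hp
      rw [he' p]
      exact H1 p i hp

theorem wp_comp (q : PS R W) (e : Option (PS R (W * (q : ℕ))) ≃ PS R W)
    (he' : ∀ p, ((e (some p) : PS R W) : ℕ) = (p : ℕ)) :
    (fun p => wp R W (e (some p))) = wp R (W * (q : ℕ)) := by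
  funext p
  unfold wp
  rw [he' p]

theorem tp_comp (q : PS R W) (e : Option (PS R (W * (q : ℕ))) ≃ PS R W)
    (he' : ∀ p, ((e (some p) : PS R W) : ℕ) = (p : ℕ)) :
    (fun p => tp R W (e (some p))) = tp R (W * (q : ℕ)) := by
  funext p
  unfold tp
  rw [he' p]

theorem sw_star {h : κ → ℕ} (q : PS R W) (e : Option (PS R (W * (q : ℕ))) ≃ PS R W)
    (he : e none = q) (he' : ∀ p, ((e (some p) : PS R W) : ℕ) = (p : ℕ)) (i : κ)
    (y : (PS R W → Option κ) → ℝ) (n : ℕ) (h1 : (q : ℕ) ∣ n + h i)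
    (h2 : ∀ j, j ≠ i → ¬ (q : ℕ) ∣ n + h j) :
    sw h (lam (wp R W) y) n = sw h (lam (wp R (W * (q : ℕ))) (ys e (wp R W) i y)) n := by
  classical
  unfold sw
  congr 1
  rw [Finset.sum_filter, Finset.sum_filter, sum_ext e]
  refine Finset.sum_congr rfl fun c _ => ?_
  rw [Fintype.sum_option]
  simp only [Dv_ext q e he he' c]
  by_cases hc : Dv h c n
  · rw [if_pos (by exact ⟨hc, fun j hj => by cases hj⟩), if_pos hc]
    have h3 : ∑ x : κ, (if Dv h c n ∧ ∀ j, some x = some j → (q : ℕ) ∣ n + h j then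
        lam (wp R W) y (ext e c (some x)) else 0) = lam (wp R W) y (ext e c (some i)) := by
      rw [Finset.sum_eq_single i]
      · rw [if_pos]
        exact ⟨hc, fun j hj => by rw [← Option.some.inj hj]; exact h1⟩
      · intro b _ hb
        rw [if_neg]
        rintro ⟨-, h4⟩
        exact h2 b hb (h4 b rfl)
      · intro h
        exact absurd (mem_univ i) h
    rw [h3, lam_ext, wp_comp q e he']
  · rw [if_neg hc, if_neg (fun h => hc h.1), Finset.sum_eq_zero, add_zero]
    intro x _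
    rw [if_neg (fun h => hc h.1)]

theorem exists_class (W v a : ℕ) {q : ℕ} (hq : q.Prime) (hqW : ¬ q ∣ W) :
    ∃ v' : ℕ, ∀ n : ℕ, n ≡ v' [MOD W * q] ↔ n ≡ v [MOD W] ∧ q ∣ n + a := by
  have hco : Nat.Coprime W q := ((Nat.Prime.coprime_iff_not_dvd hq).2 hqW).symm
  set b := (q - 1) * a with hb
  obtain ⟨v', hv'⟩ := Nat.chineseRemainder hco v b
  refine ⟨v', fun n => ?_⟩
  have hqa : q ∣ b + a := by
    have : b + a = q * a := by
      rw [hb]
      obtain ⟨m, hm⟩ : ∃ m, q = m + 1 := ⟨q - 1, (Nat.succ_pred_eq_of_pos hq.pos).symm⟩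
      rw [hm]
      simp
      ring
    rw [this]
    exact dvd_mul_right _ _
  rw [← Nat.modEq_and_modEq_iff_modEq_mul hco]
  constructor
  · rintro ⟨h1, h2⟩
    refine ⟨h1.trans hv'.1, ?_⟩
    have h3 : n + a ≡ b + a [MOD q] := (h2.trans hv'.2).add_right a
    exact (Nat.ModEq.dvd_iff h3 dvd_rfl).2 hqa
  · rintro ⟨h1, h2⟩
    refine ⟨h1.trans hv'.1.symm, ?_⟩
    have h3 : n + a ≡ b + a [MOD q] :=
      ((Nat.modEq_zero_iff_dvd).2 h2).trans ((Nat.modEq_zero_iff_dvd).2 hqa).symm
    exact (Nat.ModEq.add_right_cancel' _ h3).trans hv'.2.symm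

/-- The sieve sum over the `n` with `q ∣ n + h i`. -/
theorem sum_q (hE : Expand) {D0 : ℕ} {h : κ → ℕ} {v : ℕ} (hS : Setup D0 h W v)
    (hD : (Fintype.card κ + 2) ^ 10 ≤ D0) {x L : ℝ} (hx9 : 9 ≤ x) (hL : 0 < L)
    (hKx : 4 * Real.exp (4 * Fintype.card κ) ^ 2 * L ≤ x ^ (53 / 162 : ℝ))
    (hR3 : 3 ≤ R) (hRx : (R : ℝ) ≤ x ^ (1 / 81 : ℝ)) (q : PS R W)
    (hWx : ((W * (q : ℕ) : ℕ) : ℝ) ≤ x ^ (23 / 54 : ℝ))
    (e : Option (PS R (W * (q : ℕ))) ≃ PS R W) (he : e none = q)
    (he' : ∀ p, ((e (some p) : PS R W) : ℕ) = (p : ℕ))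
    (y : (PS R W → Option κ) → ℝ) (hy : ∀ c, |y c| ≤ 1)
    (hT : ∀ c, y c ≠ 0 → T (tp R W) (supp c) ≤ 1) (i : κ) :
    ∑ n ∈ (NS x W v).filter (fun n => (q : ℕ) ∣ n + h i),
        (1 / (n : ℝ)) * sw h (lam (wp R W) y) n ≤
      Real.log x / (2 * ((W * (q : ℕ) : ℕ) : ℝ)) *
        ∑ c : PS R (W * (q : ℕ)) → Option κ,
          ws (wp R (W * (q : ℕ))) (supp c) * ys e (wp R W) i y c ^ 2 + 1 / L := by
  classical
  have hqp : (q : ℕ).Prime := PS_prime q
  have hW' : 0 < W * (q : ℕ) := Nat.mul_pos hS.W_pos hqp.pos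
  obtain ⟨v', hv'⟩ := exists_class W v (h i) hqp (PS_not_dvd q)
  have hNS : (NS x W v).filter (fun n => (q : ℕ) ∣ n + h i) = NS x (W * (q : ℕ)) v' := by
    unfold NS
    rw [Finset.filter_filter]
    refine Finset.filter_congr fun n _ => ?_
    exact (hv' n).symm
  have hKq : (Fintype.card κ : ℝ) * wp R W q ≤ 1 := by
    have h1 := PS_large hS.small q
    have h2 : Fintype.card κ ≤ (Fintype.card κ + 2) ^ 10 :=
      (Nat.le_add_right _ 2).trans (Nat.le_self_pow (by norm_num) _)
    have h3 : ((Fintype.card κ : ℕ) : ℝ) ≤ ((q : ℕ) : ℝ) := by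
      exact_mod_cast (h2.trans hD).trans h1
    have h4 : (0 : ℝ) < ((q : ℕ) : ℝ) := by exact_mod_cast hqp.pos
    unfold wp
    rw [mul_one_div, div_le_one h4]
    exact h3
  have hwq : 0 ≤ wp R W q := by unfold wp; positivity
  -- the weights
  have hys : ∀ c, |ys e (wp R W) i y c| ≤ 3 := by
    intro c
    unfold ys
    rw [he]
    have h1 := hy (ext e c none)
    have h2 := hy (ext e c (some i))
    have h3 : |wp R W q * ∑ j, y (ext e c (some j))| ≤ 1 := by
      rw [abs_mul, abs_of_nonneg hwq]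
      calc wp R W q * |∑ j, y (ext e c (some j))|
          ≤ wp R W q * ∑ j : κ, |y (ext e c (some j))| :=
            mul_le_mul_of_nonneg_left (Finset.abs_sum_le_sum_abs _ _) hwq
        _ ≤ wp R W q * ∑ _j : κ, (1 : ℝ) :=
            mul_le_mul_of_nonneg_left (Finset.sum_le_sum fun j _ => hy _) hwq
        _ = Fintype.card κ * wp R W q := by
            rw [Finset.sum_const, Finset.card_univ, nsmul_eq_mul, mul_one, mul_comm]
        _ ≤ 1 := hKq
    rw [abs_le] at *
    constructor <;> linarith [h1.1, h1.2, h2.1, h2.2, h3.1, h3.2]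
  have hR0 : (3 : ℝ) ≤ R := by exact_mod_cast hR3
  have htp : ∀ p : PS R W, 0 ≤ tp R W p := by
    intro p
    unfold tp
    have h1 : (1 : ℝ) ≤ ((p : ℕ) : ℝ) := by exact_mod_cast (PS_prime p).one_le
    exact div_nonneg (Real.log_nonneg h1) (Real.log_nonneg (by linarith))
  have hTle : ∀ (c : PS R (W * (q : ℕ)) → Option κ) (a : Option κ),
      T (tp R (W * (q : ℕ))) (supp c) ≤ T (tp R W) (supp (ext e c a)) := by
    intro c a
    unfold T
    have hinj : Function.Injective (fun p : PS R (W * (q : ℕ)) => e (some p)) := by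
      intro p p' hpp
      exact Option.some.inj (e.injective hpp)
    rw [← tp_comp q e he']
    have hmap : ∑ p ∈ supp c, (fun p => tp R W (e (some p))) p =
        ∑ p ∈ (supp c).map ⟨_, hinj⟩, tp R W p := by
      rw [Finset.sum_map]
      rfl
    rw [hmap]
    apply Finset.sum_le_sum_of_subset_of_nonneg
    · intro p hp
      rw [Finset.mem_map] at hp
      obtain ⟨p', hp', rfl⟩ := hp
      unfold supp at hp' ⊢
      rw [mem_filter] at hp' ⊢
      refine ⟨mem_univ _, ?_⟩
      simp only [Function.Embedding.coeFn_mk]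
      rw [ext_at_some]
      exact hp'.2
    · intro p _ _
      exact htp p
  have hysT : ∀ c, ys e (wp R W) i y c ≠ 0 → T (tp R (W * (q : ℕ))) (supp c) ≤ 3 := by
    intro c hc
    by_contra hcon
    push Not at hcon
    have h0 : ∀ a, y (ext e c a) = 0 := by
      intro a
      by_contra hne
      have h1 := hT _ hne
      have h2 := hTle c a
      linarith
    apply hc
    unfold ys
    simp [h0]
  have hmain := Pool.Agent.Helper18.MT.sumGen_core hE (h := h) (v := v') hW' hx9 hL hWx hKx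
    (by omega) hRx (fun _ => univ) (by
      intro p j _ j' _ hjj hdvd
      have h1 := hS.diff j j' hjj p (PS_prime p) hdvd
      exact PS_not_dvd p (Dvd.dvd.mul_right h1 _))
    (ys e (wp R W) i y) (fun c => (hys c).trans hR0) hysT (fun _ _ _ j _ => mem_univ j)
  have hG := Pool.Agent.Helper9.MT.gramUpper (PS R (W * (q : ℕ))) κ (wp R (W * (q : ℕ)))
    (ys e (wp R W) i y) (fun p => by unfold wp; positivity) (fun p => by
      have h1 : D0 ≤ (p : ℕ) := by
        have h1 := PS_large hS.small (e (some p))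
        rwa [he' p] at h1
      have h2 : Fintype.card κ ≤ (Fintype.card κ + 2) ^ 10 :=
        (Nat.le_add_right _ 2).trans (Nat.le_self_pow (by norm_num) _)
      have h3 : ((Fintype.card κ : ℕ) : ℝ) ≤ ((p : ℕ) : ℝ) := by
        exact_mod_cast (h2.trans hD).trans h1
      have h4 : (0 : ℝ) < ((p : ℕ) : ℝ) := by exact_mod_cast (PS_prime p).pos
      unfold wp
      rw [mul_one_div, div_le_one h4]
      exact h3)
  have hsum : ∑ n ∈ (NS x W v).filter (fun n => (q : ℕ) ∣ n + h i),
      (1 / (n : ℝ)) * sw h (lam (wp R W) y) n = ∑ n ∈ NS x (W * (q : ℕ)) v',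
        (1 / (n : ℝ)) * sw h (lam (wp R (W * (q : ℕ))) (ys e (wp R W) i y)) n := by
    rw [← hNS]
    refine Finset.sum_congr rfl fun n hn => ?_
    rw [mem_filter] at hn
    rw [sw_star q e he he' i y n hn.2]
    intro j hj hdvd
    have h1 : ((q : ℕ) : ℤ) ∣ ((n + h i : ℕ) : ℤ) := by exact_mod_cast hn.2
    have h2 : ((q : ℕ) : ℤ) ∣ ((n + h j : ℕ) : ℤ) := by exact_mod_cast hdvd
    have h3 := dvd_sub h1 h2
    push_cast at h3
    rw [add_sub_add_left_eq_sub] at h3
    exact PS_not_dvd q (hS.diff i j (Ne.symm hj) _ hqp h3)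
  rw [hsum]
  have hlogx : 0 ≤ Real.log x := Real.log_nonneg (by linarith)
  have h5 := (abs_le.1 hmain).2
  have h6 := mul_le_mul_of_nonneg_left hG
    (show 0 ≤ Real.log x / (2 * ((W * (q : ℕ) : ℕ) : ℝ)) by positivity)
  linarith

end Arith

end Pool.Agent.Helper66.PAP
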