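import Pool.Agent.Helper66.PAP.BadSum
import Pool.Agent.Helper66.PAP.CardLe
import Pool.Agent.Helper87.MT.Tuple
import Pool.Agent.Helper9.MT.Gram
import Pool.Agent.Helper90.MT.LowerMain
import Pool.Agent.Helper46.MT.Expand
import Pool.Agent.Helper74.MT.SumAll
import Pool.Agent.Helper74.MT.BVError
import Pool.Agent.Helper83.MT.SumPrime
import Pool.Agent.Helper55.MT.Sqfree
import Pool.Agent.Helper28.MT.OneDim

/-!
# Project PAP: the weighted number of the rough `n` with many primes, and the final sum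
-/

set_option autoImplicit false

open Finset Filter
open ArithmeticFunction (cardFactors)

namespace Pool.Agent.Helper66.PAP

open Pool.Agent.Helper1.MT

/-- The number of the primes among the `n + h i`. -/
def np {κ : Type} [Fintype κ] (h : κ → ℕ) (n : ℕ) : ℕ :=
  (univ.filter (fun i => (n + h i).Prime)).card

/-- The weighted number of the rough `n` with many primes. -/
theorem rough_many {κ : Type} [Fintype κ] [DecidableEq κ] {J D0 W v : ℕ} {h : κ → ℕ}
    {c1 c ε δ1 x : ℝ} (hK0 : 0 < Fintype.card κ) (hc1 : 0 < c1)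
    (hF : SieveAt c1 c J D0 h W v x) [DecidablePred (BadAt h W ε x)]
    (hbad : ∑ n ∈ (NS x W v).filter (BadAt h W ε x), ux h J W x n ≤
      δ1 * Sx (Fintype.card κ) J W x + 1)
    (hδ1 : δ1 ≤ c1 * (J + 2) / (8 * Fintype.card κ))
    (hS : 2 * Fintype.card κ + c1 * (J + 2) / 4 ≤
      3 / 8 * (c1 * (J + 2)) * Sx (Fintype.card κ) J W x) (hS0 : 0 ≤ Sx (Fintype.card κ) J W x) :
    c1 * (J + 2) / (4 * Fintype.card κ) * Sx (Fintype.card κ) J W x ≤
      ∑ n ∈ (NS x W v).filter (fun n => ¬ BadAt h W ε x n ∧ c1 * (J + 2) / 4 ≤ np h n),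
        ux h J W x n := by
  classical
  set K := Fintype.card κ with hK
  set S := Sx K J W x with hSdef
  have hKr : (0 : ℝ) < K := by exact_mod_cast hK0
  set u := ux h J W x with hu
  have hu0 : ∀ n, 0 ≤ u n := fun n => ux_nonneg h J W x n
  set τ := c1 * (J + 2) / 4 with hτ
  have hJ0 : (0 : ℝ) ≤ J := Nat.cast_nonneg J
  have hτ0 : 0 < τ := by positivity
  have hnp : ∀ n, (np h n : ℝ) ≤ K := by
    intro n
    have h1 : np h n ≤ K := by
      unfold np
      exact Finset.card_le_univ _
    exact_mod_cast h1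
  -- all `n`
  have hA : c1 * (J + 2) * S - K ≤ ∑ n ∈ NS x W v, u n * np h n := by
    have h1 : ∑ n ∈ NS x W v, u n * np h n =
        ∑ m : κ, ∑ n ∈ (NS x W v).filter (fun n => (n + h m).Prime), u n := by
      simp only [Finset.sum_filter]
      rw [Finset.sum_comm]
      refine Finset.sum_congr rfl fun n _ => ?_
      unfold np
      rw [← Finset.sum_filter, Finset.sum_const, nsmul_eq_mul, mul_comm]
    rw [h1]
    have h2 : ∑ _m : κ, (c1 * ((J + 2) / K) * S - 1) ≤
        ∑ m : κ, ∑ n ∈ (NS x W v).filter (fun n => (n + h m).Prime), u n :=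
      Finset.sum_le_sum fun m _ => hF.prim m
    rw [Finset.sum_const, Finset.card_univ, nsmul_eq_mul, ← hK] at h2
    have h3 : (K : ℝ) * (c1 * ((J + 2) / K) * S - 1) = c1 * (J + 2) * S - K := by
      field_simp
    rw [h3] at h2
    exact h2
  -- the bad `n`
  have hB : ∑ n ∈ (NS x W v).filter (BadAt h W ε x), u n * np h n ≤ K * (δ1 * S + 1) := by
    calc ∑ n ∈ (NS x W v).filter (BadAt h W ε x), u n * np h n ≤
        ∑ n ∈ (NS x W v).filter (BadAt h W ε x), u n * K :=
          Finset.sum_le_sum fun n _ => mul_le_mul_of_nonneg_left (hnp n) (hu0 n)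
      _ = K * ∑ n ∈ (NS x W v).filter (BadAt h W ε x), u n := by
          rw [← Finset.sum_mul, mul_comm]
      _ ≤ _ := mul_le_mul_of_nonneg_left hbad hKr.le
  have hsplit := Finset.sum_filter_add_sum_filter_not (NS x W v) (BadAt h W ε x)
    (fun n => u n * np h n)
  set G := (NS x W v).filter (fun n => ¬ BadAt h W ε x n) with hG
  have hC : ∑ n ∈ G, u n * np h n ≤
      K * ∑ n ∈ G.filter (fun n => τ ≤ np h n), u n + τ * (S + 1) := by
    rw [← Finset.sum_filter_add_sum_filter_not G (fun n => τ ≤ (np h n : ℝ))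
      (fun n => u n * np h n)]
    apply add_le_add
    · rw [mul_comm, Finset.sum_mul]
      exact Finset.sum_le_sum fun n _ => mul_le_mul_of_nonneg_left (hnp n) (hu0 n)
    · calc ∑ n ∈ G.filter (fun n => ¬ τ ≤ (np h n : ℝ)), u n * np h n ≤
          ∑ n ∈ G.filter (fun n => ¬ τ ≤ (np h n : ℝ)), u n * τ := by
            refine Finset.sum_le_sum fun n hn => ?_
            have := (mem_filter.1 hn).2
            push Not at this
            exact mul_le_mul_of_nonneg_left this.le (hu0 n)
        _ = τ * ∑ n ∈ G.filter (fun n => ¬ τ ≤ (np h n : ℝ)), u n := by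
            rw [← Finset.sum_mul, mul_comm]
        _ ≤ τ * ∑ n ∈ NS x W v, u n := by
            apply mul_le_mul_of_nonneg_left _ hτ0.le
            apply Finset.sum_le_sum_of_subset_of_nonneg
            · exact (Finset.filter_subset _ _).trans (Finset.filter_subset _ _)
            · intro n _ _
              exact hu0 n
        _ ≤ τ * (S + 1) := mul_le_mul_of_nonneg_left hF.tot hτ0.le
  have hfil : G.filter (fun n => τ ≤ np h n) =
      (NS x W v).filter (fun n => ¬ BadAt h W ε x n ∧ τ ≤ np h n) := by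
    rw [hG, Finset.filter_filter]
  rw [hfil] at hC
  set Z := ∑ n ∈ (NS x W v).filter (fun n => ¬ BadAt h W ε x n ∧ τ ≤ np h n), u n with hZ
  have hD : K * (δ1 * S) ≤ c1 * (J + 2) / 8 * S := by
    have h1 : K * δ1 ≤ c1 * (J + 2) / 8 := by
      calc K * δ1 ≤ K * (c1 * (J + 2) / (8 * K)) := mul_le_mul_of_nonneg_left hδ1 hKr.le
        _ = _ := by field_simp
    calc K * (δ1 * S) = K * δ1 * S := by ring
      _ ≤ _ := mul_le_mul_of_nonneg_right h1 hS0
  have hE : c1 * (J + 2) / 4 * S ≤ K * Z := by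
    have e1 : c1 * (J + 2) / 4 = τ := rfl
    have h4 : c1 * (J + 2) * S - K ≤ K * (δ1 * S + 1) + (K * Z + τ * (S + 1)) := by
      linarith
    have h5 : c1 * (J + 2) = 4 * τ := by rw [hτ]; ring
    rw [h5] at h4 hS hD
    have h6 : 4 * τ / 4 * S = τ * S := by ring
    rw [e1]
    have h7 : τ * (S + 1) = τ * S + τ := by ring
    have h8 : K * (δ1 * S + 1) = K * (δ1 * S) + K := by ring
    rw [h7, h8] at h4
    linarith
  calc c1 * (J + 2) / (4 * K) * S = c1 * (J + 2) / 4 * S / K := by field_simp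
    _ ≤ Z := by
      rw [div_le_iff₀ hKr, mul_comm Z]
      exact hE

end Pool.Agent.Helper66.PAP
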